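import Pool.Agent.Helper38.PUR.Pur
import Pool.Agent.Helper80.NSL.H1d

/-! [PUR], the data of one coordinate in the form of helper80's row H1D. -/

set_option autoImplicit false

namespace Pool.Agent.Helper38.PUR

open Finset Filter Topology Matrix Pool.Agent.Helper69.RK Pool.Agent.Helper31.EC Pool.Agent.Helper31.EC.Sp
open Pool.Agent.Helper40.EL Pool.Agent.Helper89.LX Pool.Agent.Helper3.LF Pool.Agent.Helper84.MT
open Pool.Agent.Helper33.LIT Pool.Agent.Helper49.KL Pool.Agent.Helper3.KL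
open Pool.Agent.Helper87.NSL (cndR)
open Pool.Agent.Helper89.RAT (xz Jz zv)
open Pool.Agent.Helper4.VZ (zex)

noncomputable section

variable {S : Sp} {N m v g D : ℕ} {ι : Type}

theorem xz_zex (y : S.VV m) (z : Fin m) (k : ℕ) (ω : (S.F k).Ω) (G : ∀ k, (S.F k).Ω → Matrix (Mon m D) (Mon m D) ℝ) :
    xz y z k ω (G k ω) = zex y G z k ω := rfl

/-- literal admissible forms: bounds, typical smallness at the point -/
theorem lf_data {y : S.VV m} {κ : Type} {A : κ → Part S} {L : LF S (Mon m D)} (h : (gaq y D).Adf A L.fd) :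
    (∀ᶠ k in UF, ∀ ω, (S.F k).μ ω ≠ 0 → Cpd (2 ^ (((gaq y D).C + 1) * (S.F k).n)) (L.G k ω)) ∧
    (∀ᶠ k in UF, ∀ ω ω', (S.F k).μ ω ≠ 0 → (S.F k).μ ω' ≠ 0 → L.Z k ω ω' → (S.F k).Z ω ω' → L.G k ω = L.G k ω') ∧
    (∀ e : ℝ, 0 < e → Sp.Typ (S := S) (fun k ω => phi (S.dl 1 k) (L.G k ω) (y.v k ω) ≤ 2 ^ (e * (S.F k).n))) := by
  refine ⟨?_, Eventually.of_forall fun k => L.meas k, fun e he => ?_⟩
  · filter_upwards [h 1 one_pos] with k hk ω hω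
    exact (hk.2.1 ω hω).1
  · have hT : Tendsto (fun k => (S.F k).pb (fun ω => ¬ phi (S.dl 1 k) (L.G k ω) (y.v k ω) ≤ 2 ^ (e * (S.F k).n)))
        UF (𝓝 0) := by
      rw [Metric.tendsto_nhds]
      intro δ hδ
      have hm : 0 < min (δ / 2) e := lt_min (by linarith) he
      filter_upwards [h _ hm] with k hk
      rw [Real.dist_eq, sub_zero, abs_of_nonneg ((S.F k).pb_nonneg _)]
      have h1 : (S.F k).pb (fun ω => ¬ phi (S.dl 1 k) (L.G k ω) (y.v k ω) ≤ 2 ^ (e * (S.F k).n)) ≤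
          min (δ / 2) e := by
        refine le_trans ((S.F k).pb_mono ?_) hk.2.2.1
        intro ω _ h2 h3
        apply h2
        have h4 : phi (S.dl 1 k) (L.G k ω) (y.v k ω) ≤ 2 ^ (min (δ / 2) e * (S.F k).n) := h3
        refine h4.trans (Real.rpow_le_rpow_of_exponent_le (by norm_num) ?_)
        exact mul_le_mul_of_nonneg_right (min_le_right _ _) (S.F k).pos.le
      have h2 : min (δ / 2) e ≤ δ / 2 := min_le_left _ _
      linarith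
    exact hT

/-- THE DATA of the coordinate `q`, in the form of row H1D -/
theorem Rec.data {s : MSys S N (lin g) ι} {R V : ∀ k, Setoid (S.F k).Ω} {σ : Fin v → Fin N} {q : Fin N} {b : ℝ}
    (h : Rec s R V σ q b) : ∃ (D : ℕ) (τ : Fin (v + 1) → Fin N) (z : Fin (v + 1))
      (G : ∀ k, (S.F k).Ω → Matrix (Mon (v + 1) D) (Mon (v + 1) D) ℝ) (C : ℝ), 1 ≤ D ∧ 0 ≤ C ∧ τ z = q ∧
      (∀ k ω i, (prs s τ).Q.v k ω i = s.Q.v k ω (τ i)) ∧
      (∀ i, i ≠ z → ∃ j, ∀ k ω, (prs s σ).Q.v k ω j = (prs s τ).Q.v k ω i) ∧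
      (∀ᶠ k in UF, ∀ ω, (S.F k).μ ω ≠ 0 → Cpd (2 ^ (C * (S.F k).n)) (G k ω)) ∧
      (∀ᶠ k in UF, ∀ ω ω', (S.F k).μ ω ≠ 0 → (S.F k).μ ω' ≠ 0 → V k ω ω' → (S.F k).Z ω ω' → G k ω = G k ω') ∧
      (∀ e : ℝ, 0 < e → Sp.Typ (S := S) (fun k ω => phi (S.dl 1 k) (G k ω) ((prs s τ).Q.v k ω) ≤
        2 ^ (e * (S.F k).n))) ∧
      ∀ᶠ k in UF, ∀ ω, (S.F k).μ ω ≠ 0 → b ≤ zex (prs s τ).Q G z k ω := by
  obtain ⟨D, τ, z, f, L, h1, h2, h3, h4, h5, h6, h7, h8⟩ := h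
  obtain ⟨a1, a2, a3⟩ := lf_data h7.1
  rw [h6] at a2
  refine ⟨D, τ, z, L.G, (gaq (prs s τ).Q D).C + 1, h1, by linarith [(gaq (prs s τ).Q D).C0], h3, fun k ω i =>
    prs_v s τ k ω i, fun i hi => ?_, a1, a2, a3, h8⟩
  obtain ⟨j, hj⟩ := h5 i hi
  refine ⟨j, fun k ω => ?_⟩
  rw [prs_v, prs_v, ← hj, (h4 j).2]

end

end Pool.Agent.Helper38.PUR
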