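import Pool.Agent.Helper38.PUR.Pur
import Pool.Agent.Helper87.NSL.St

/-! [BAD]: from one non-trivial K-form to an event all of whose events (of extensions, several times) have non-trivial
K-forms. -/

set_option autoImplicit false

namespace Pool.Agent.Helper38.PUR

open Finset Filter Topology Matrix Pool.Agent.Helper69.RK Pool.Agent.Helper31.EC Pool.Agent.Helper31.EC.Sp
open Pool.Agent.Helper40.EL Pool.Agent.Helper89.LX Pool.Agent.Helper3.LF Pool.Agent.Helper84.MT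
open Pool.Agent.Helper33.LIT Pool.Agent.Helper49.KL Pool.Agent.Helper3.KL
open Pool.Agent.Helper87.NSL (cndR)
open Pool.Agent.Helper14.MC (gx vx vx_UB vol_eq)
open Pool.Agent.Helper38.NSL (im_id_supp)

noncomputable section

variable {N g D : ℕ} {ι : Type} {C : ∀ T S : Sp, Pj T S → Prop}

/-- there is a literal K-form with exponent at least `b` at every point -/
def GoodF (t : Pr N g ι) (D : ℕ) (b : ℝ) : Prop := ∃ L : LF t.S (Mon N D),
  (gaq t.s.Q D).AdfK (LC.kz fun k => fc (t.R k)) (cndR t.s t.R 0) L.fd ∧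
    ∀ᶠ k in UF, ∀ ω, (t.S.F k).μ ω ≠ 0 → b ≤ gx t.s.Q k ω (L.G k ω)

/-- a literal form on an event -/
theorem adfK_imq {S T : Sp} [Finite ι] {s : MSys S N (lin g) ι} {R : ∀ k, Setoid (S.F k).Ω} {L : LF S (Mon N D)}
    (h : (gaq s.Q D).AdfK (LC.kz fun k => fc (R k)) (cndR s R 0) L.fd) (p : Pj T S)
    (A : ∀ k, (T.F k).Ω → Prop) (hA : 0 < ul (T.pr A)) :
    (gaq (s.im p A hA).Q D).AdfK (LC.kz (S := Sp.im p A) fun k => fc (R k))
      (cndR (s.im p A hA) R 0) (L.im p A).fd := by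
  have h9 := LF.im_adfK (p := p) (E := A) h hA
  have e1 : (fun i => (cndR s R 0 i).im p A) = cndR (S := Sp.im p A) (s.im p A hA) R 0 :=
    funext fun i => (cndR_im s R 0 p A hA i).symm
  rw [e1] at h9
  exact h9

theorem GoodF.imp [Finite ι] {t : Pr N g ι} {b : ℝ} (h : GoodF t D b) {T : Sp} (p : Pj T t.S)
    (A : ∀ k, (T.F k).Ω → Prop) (hA : 0 < ul (T.pr A)) : GoodF (t.imp p A hA) D b := by
  obtain ⟨L, h1, h2⟩ := h
  refine ⟨L.im p A, adfK_imq h1 p A hA, ?_⟩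
  filter_upwards [h2] with k hk ω hω
  exact hk ω (FSp.im_supp (p.fp k) (A k) ω hω)

theorem Rch.goodF [Finite ι] {t t' : Pr N g ι} (h : Rch C t t') {b : ℝ} (h0 : GoodF t D b) : GoodF t' D b := by
  induction h with
  | refl => exact h0
  | im _ p hp A hA ih => exact ih.imp p A hA

theorem GoodF.bad [Finite ι] {t : Pr N g ι} {b : ℝ} (h : GoodF t D b) (hD : 1 ≤ D) (hb : 0 < b) : Bad t := by
  obtain ⟨L, h1, h2⟩ := h
  obtain ⟨x, hx⟩ := (gaq t.s.Q D).exists_optfK (LC.kz fun k => fc (t.R k)) (cndR t.s t.R 0)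
  refine ⟨D, hD, x, hx, ?_⟩
  have h3 := vol_optK_le hx h1
  have h4 : b ≤ ul (vx t.s.Q L.fd) := by
    apply const_le_ul (vx_UB h1.1)
    filter_upwards [h2] with k hk
    have e1 : vx t.s.Q L.fd k = ∑ ω, (t.S.F k).μ ω * gx t.s.Q k ω (L.G k ω) := rfl
    rw [e1]
    have e2 : b = ∑ ω, (t.S.F k).μ ω * b := by
      have h4 : ∑ ω, (t.S.F k).μ ω = 1 := (t.S.F k).ms
      rw [← Finset.sum_mul, h4, one_mul]
    rw [e2]
    apply Finset.sum_le_sum
    intro ω _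
    by_cases h0 : (t.S.F k).μ ω = 0
    · rw [h0, zero_mul, zero_mul]
    · exact mul_le_mul_of_nonneg_left (hk ω h0) ((t.S.F k).nn ω)
  have h5 : vol t.s.Q D L.fd = N - ul (vx t.s.Q L.fd) := vol_eq _ _
  linarith

/-- a literal form with a gain: the event where the exponent is large -/
theorem exists_evt {S : Sp} {Q : S.VV N} {κ : Type} {A : κ → Part S} {L : LF S (Mon N D)}
    (hL : (gaq Q D).Adf A L.fd) (hv : vol Q D L.fd < N) : ∃ b : ℝ, 0 < b ∧
      0 < ul (S.pr fun k ω => b ≤ gx Q k ω (L.G k ω)) := by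
  have h5 : vol Q D L.fd = N - ul (vx Q L.fd) := vol_eq _ _
  have hγ0 : 0 < ul (vx Q L.fd) := by linarith
  obtain ⟨B, hB, hb⟩ := gx_bd hL
  have hb' : ∀ᶠ k in UF, ∀ ω, (S.F k).μ ω ≠ 0 → 0 ≤ gx Q k ω (L.G k ω) ∧ gx Q k ω (L.G k ω) ≤ B := hb
  refine ⟨ul (vx Q L.fd) / 2, by linarith, ?_⟩
  generalize hγ : ul (vx Q L.fd) = γ at hγ0
  have hUB : UB (S.pr fun k ω => γ / 2 ≤ gx Q k ω (L.G k ω)) := UB_pr _
  have h7 : γ ≤ γ / 2 + B * ul (S.pr fun k ω => γ / 2 ≤ gx Q k ω (L.G k ω)) := by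
    have t : Tendsto (fun k => γ / 2 + B * S.pr (fun k ω => γ / 2 ≤ gx Q k ω (L.G k ω)) k) UF
        (𝓝 (γ / 2 + B * ul (S.pr fun k ω => γ / 2 ≤ gx Q k ω (L.G k ω)))) :=
      ((ul_tendsto hUB).const_mul B).const_add _
    rw [← hγ] at t ⊢
    refine le_of_tendsto_of_tendsto (ul_tendsto (vx_UB hL)) t ?_
    filter_upwards [hb'] with k hk
    exact markov (F := S.F k) (by linarith) hk
  by_contra hc
  push Not at hc
  have h8 := mul_le_mul_of_nonneg_left hc hB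
  rw [mul_zero] at h8
  linarith

/-- the event where the exponent of a non-trivial form is large -/
theorem exists_goodF [Finite ι] {S : Sp} {s : MSys S N (lin g) ι} {R : ∀ k, Setoid (S.F k).Ω}
    {x : ∀ k, FD (S.F k) (Mon N D)}
    (hx : (gaq s.Q D).OptfK (LC.kz fun k => fc (R k)) (cndR s R 0) x) (hv : vol s.Q D x < N) :
    ∃ (b : ℝ) (A : ∀ k, (S.F k).Ω → Prop) (hA : 0 < ul (S.pr A)), 0 < b ∧
      GoodF (Pr.im (⟨S, s, R⟩ : Pr N g ι) A hA) D b := by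
  obtain ⟨σ', hlit, hopt⟩ := exists_litD _ hx
  have h4 : vol s.Q D (litFD σ') = vol s.Q D x := vol_optK_eq hopt hx
  have h5 : vol s.Q D (litLF σ').fd < N := by
    have e1 : vol s.Q D (litLF σ').fd = vol s.Q D (litFD σ') := rfl
    rw [e1]
    linarith
  have h6 : (gaq s.Q D).AdfK (LC.kz fun k => fc (R k)) (cndR s R 0) (litLF σ').fd := hopt.1
  generalize litLF σ' = L at h5 h6
  obtain ⟨b, hb, hA⟩ := exists_evt h6.1 h5
  refine ⟨b, fun k ω => b ≤ gx s.Q k ω (L.G k ω), hA, hb, L.im (Pj.id S) _, adfK_imq h6 (Pj.id S) _ hA, ?_⟩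
  have h0 : ∀ᶠ k in UF, 0 < S.pr (fun k ω => b ≤ gx s.Q k ω (L.G k ω)) k :=
    (ul_tendsto (UB_pr _)).eventually (lt_mem_nhds hA)
  filter_upwards [h0] with k hk ω hω
  exact (im_id_supp (fun k ω => b ≤ gx s.Q k ω (L.G k ω)) k ω hω hk.ne').2

/-- **[BAD]** -/
theorem st_bad : Pool.Agent.Helper87.NSL.ST_BAD := by
  intro S N g r s R D x _ hD _ hx hv
  obtain ⟨b, A, hA, hb, h⟩ := exists_goodF hx hv
  exact ⟨A, hA, fun t ht => (ht.goodF h).bad hD hb⟩

end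

end Pool.Agent.Helper38.PUR
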