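import Pool.Agent.Helper38.PUR.Use
import Pool.Agent.Helper87.NSL.St
import Pool.Agent.Helper18.PRM.Mon
import Pool.Agent.Helper69.DGR.Emb

/-! [CUTF]: the forms of the coordinates as cuts of one degree in the coordinates `(q, σ)`. -/

set_option autoImplicit false

namespace Pool.Agent.Helper38.PUR

open Finset Filter Topology Matrix Pool.Agent.Helper69.RK Pool.Agent.Helper31.EC Pool.Agent.Helper31.EC.Sp
open Pool.Agent.Helper40.EL Pool.Agent.Helper89.LX Pool.Agent.Helper3.LF Pool.Agent.Helper84.MT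
open Pool.Agent.Helper33.LIT Pool.Agent.Helper49.KL Pool.Agent.Helper3.KL
open Pool.Agent.Helper87.NSL (cndR)
open Pool.Agent.Helper89.RAT (xz Jz zv single_dv)
open Pool.Agent.Helper76.DIM (pck CutF)
open Pool.Agent.Helper18.PRM (prm prm_Cpd phi_prm Jq_prm)
open Pool.Agent.Helper69.DGR (upm upm_Cpd phi_upm Jq_upm cE cE_one)
open Pool.Agent.Helper95.LF (PdM)

noncomputable section

variable {S : Sp} {N m v g D D' : ℕ} {ι : Type}

/-- full digits over a literal label -/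
theorem full_lit {y : S.VV m} {V : ∀ k, Setoid (S.F k).Ω} (h0 : (m : ℝ) ≤ H (up1 (Lab.ofZ V) (y.dg 1))) :
    Tendsto (fun k => h (fc (Setoid.ker (y.cellv 1 k))) (fc (V k)) / (S.F k).n) UF (𝓝 m) := by
  have e0 : ∀ X : S.L, H (up1 (Lab.ofZ V) X) = hr (rp X) (fun k => fc (V k)) := by
    intro X
    rw [(Lab.ofZ V).H_upL, div_one]
    unfold hr
    refine ul_congr (Eventually.of_forall fun k => ?_)
    refine congrArg (fun t => t / (S.F k).n) ?_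
    have h1 : ((Lab.ofZ V) k).v = (FLab.triv (S.F k)).p.map (fc (V k)) := rfl
    have h2 : ((Lab.ofZ V) k).p.map (rp X k) = (FLab.triv (S.F k)).p.map (rp X k) := rfl
    rw [h1, h2]
    exact (FLab.triv (S.F k)).p.h_map _ _
  have e1 : y.dg 1 = cl (y.bdd 1).toInf := io_eq (y.bdd 1)
  have e2 := rp_rpI (y.bdd 1).toInf
  rw [← e1] at e2
  have e3 : rpI (y.bdd 1).toInf = pcd y := rfl
  rw [e3] at e2
  have h1 : hr (rp (y.dg 1)) (fun k => fc (V k)) ≤ hr (pcd y) (fun k => fc (V k)) :=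
    hr_mono (rp_Bd _) (pcd_Bd y) e2.1
  have h2 : hr (pcd y) (fun k => fc (V k)) ≤ hr (rp (y.dg 1)) (fun k => fc (V k)) :=
    hr_mono (pcd_Bd y) (rp_Bd _) e2.2
  have h3 : H (up1 (Lab.ofZ V) (y.dg 1)) ≤ m := by
    refine (H_up1_le _ _).trans ?_
    have := y.H_dg_le (r := 1) zero_le_one
    rwa [mul_one] at this
  have h4 : hr (pcd y) (fun k => fc (V k)) = m := by
    rw [e0] at h0 h3
    linarith
  have h5 := (pcd_Bd y).tendsto (fun k => fc (V k))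
  rw [h4] at h5
  exact h5

theorem prs_pck (s : MSys S N (lin g) ι) (τ : Fin m → Fin N) : (prs s τ).Q = pck s.Q τ := by
  apply vv_ext'
  funext k ω i
  exact prs_v s τ k ω i

/-- the permutation of the coordinates -/
def zf {z : Fin (v + 1)} {f : Fin v → Fin (v + 1)} (hf : ∀ j, f j ≠ z) (hf1 : Function.Injective f) :
    Equiv.Perm (Fin (v + 1)) := Equiv.ofBijective (Fin.cons z f : Fin (v + 1) → Fin (v + 1)) (by
  rw [← Finite.injective_iff_bijective, Fin.cons_injective_iff]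
  refine ⟨?_, hf1⟩
  rintro ⟨j, hj⟩
  exact hf j hj)

/-- the form of degree `D'` in the coordinates `(q, σ)` -/
theorem cut_one {s : MSys S N (lin g) ι} {R V : ∀ k, Setoid (S.F k).Ω} {σ : Fin v → Fin N} {q : Fin N} {b : ℝ}
    (hσ : Function.Injective σ) (h : Rec s R V σ q b) : ∃ D₀ : ℕ, ∀ D', D₀ ≤ D' →
    ∃ G : ∀ k, (S.F k).Ω → Matrix (Mon (v + 1) D') (Mon (v + 1) D') ℝ,
      (∀ᶠ k in UF, ∀ ω, (S.F k).μ ω ≠ 0 → PdM (G k ω)) ∧
      (∀ᶠ k in UF, ∀ ω ω', (S.F k).μ ω ≠ 0 → (S.F k).μ ω' ≠ 0 → (S.F k).Z ω ω' → V k ω ω' → G k ω = G k ω') ∧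
      (∀ η : ℝ, 0 < η → Typ (fun k ω => phi (S.dl 1 k) (G k ω)
        ((pck s.Q (Fin.cons q σ : Fin (v + 1) → Fin N)).v k ω) ≤ 2 ^ (η * (S.F k).n))) ∧
      (∀ η : ℝ, 0 < η → Typ (fun k ω => 2 ^ (2 * (b - η) * (S.F k).n) ≤
        1 + Jq (S.dl 1 k) (G k ω) ((pck s.Q (Fin.cons q σ : Fin (v + 1) → Fin N)).v k ω) 0 0)) := by
  obtain ⟨D, τ, z, f, L, h1, h2, h3, h4, h5, h6, h7, h8⟩ := h
  obtain ⟨a1, a2, a3⟩ := lf_data h7.1
  rw [h6] at a2
  refine ⟨D, fun D' hD => ?_⟩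
  have hf1 : Function.Injective f := fun i j hij => hσ (by rw [← (h4 i).2, ← (h4 j).2, hij])
  set π : Equiv.Perm (Fin (v + 1)) := zf (fun j => (h4 j).1) hf1 with hπ
  have π0 : π 0 = z := rfl
  have πs : ∀ j : Fin v, π j.succ = f j := fun j => rfl
  have hpt : ∀ k ω, (pck s.Q (Fin.cons q σ : Fin (v + 1) → Fin N)).v k ω =
      fun i => (prs s τ).Q.v k ω (π i) := by
    intro k ω
    funext i
    rw [prs_v]
    show s.Q.v k ω ((Fin.cons q σ : Fin (v + 1) → Fin N) i) = _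
    induction i using Fin.cases with
    | zero => rw [Fin.cons_zero, π0, h3]
    | succ j => rw [Fin.cons_succ, πs, (h4 j).2]
  have hphi : ∀ k ω, phi (S.dl 1 k) (prm π (upm hD (L.G k ω)))
      ((pck s.Q (Fin.cons q σ : Fin (v + 1) → Fin N)).v k ω) =
      phi (S.dl 1 k) (upm hD (L.G k ω)) ((prs s τ).Q.v k ω) := by
    intro k ω
    rw [hpt, phi_prm]
  have hJ : ∀ k ω, Jq (S.dl 1 k) (prm π (upm hD (L.G k ω)))
      ((pck s.Q (Fin.cons q σ : Fin (v + 1) → Fin N)).v k ω) 0 0 =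
      Jq (S.dl 1 k) (upm hD (L.G k ω)) ((prs s τ).Q.v k ω) z z := by
    intro k ω
    rw [hpt, Jq_prm, Matrix.submatrix_apply, π0]
  have hcap : ∀ᶠ k in UF, ∀ ω, (S.F k).μ ω ≠ 0 → PdM (L.G k ω) := by
    filter_upwards [a1] with k hk ω hω
    exact (hk ω hω).pdM
  refine ⟨fun k ω => prm π (upm hD (L.G k ω)), ?_, ?_, ?_, ?_⟩
  · filter_upwards [a1] with k hk ω hω
    have hc1 : (1 : ℝ) ≤ 2 ^ (((gaq (prs s τ).Q D).C + 1) * (S.F k).n) :=
      Real.one_le_rpow (by norm_num) (mul_nonneg (by linarith [(gaq (prs s τ).Q D).C0]) (S.F k).pos.le)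
    exact (prm_Cpd π (upm_Cpd hD le_rfl hc1 (hk ω hω))).pdM
  · filter_upwards [a2] with k hk ω ω' b1 b2 b3 b4
    show prm π (upm hD (L.G k ω)) = prm π (upm hD (L.G k ω'))
    rw [hk ω ω' b1 b2 b4 b3]
  · intro η hη
    obtain ⟨K, hK, hK1⟩ := (gaq (prs s τ).Q D').one
    have h0 : (0 : ℝ) ≤ nn (v + 1) D' * Cm (v + 1) D ^ 2 := by
      have := nn_one (v + 1) D'
      positivity
    have hs : S.Sub (fun k => nn (v + 1) D' * Cm (v + 1) D ^ 2 + K k) := (S.Sub_const h0).add hK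
    refine typ_mono (a3 (η / 2) (by linarith)) ?_
    filter_upwards [hcap, hK1, hs.eventually_le (show 0 < η / 2 by linarith), hK.1] with k c1 c2 c3 c4 ω hω hφ
    have hn := (S.F k).pos
    show phi (S.dl 1 k) (prm π (upm hD (L.G k ω))) _ ≤ _
    rw [hphi]
    have d1 := phi_upm hD (L.G k ω) (c1 ω hω) (S.dl 1 k) (S.dl_pos 1 k) ((prs s τ).Q.v k ω)
    have d2 : phi (S.dl 1 k) (1 : Matrix (Mon (v + 1) D') (Mon (v + 1) D') ℝ) ((prs s τ).Q.v k ω) ≤ K k := c2 ω hω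
    have d3 : (1 : ℝ) ≤ 2 ^ (η / 2 * (S.F k).n) := Real.one_le_rpow (by norm_num) (by positivity)
    have e2 : (2 : ℝ) ^ (η * (S.F k).n) = 2 ^ (η / 2 * (S.F k).n) * 2 ^ (η / 2 * (S.F k).n) := by
      rw [← Real.rpow_add (by norm_num)]
      congr 1; ring
    rw [e2]
    calc phi (S.dl 1 k) (upm hD (L.G k ω)) ((prs s τ).Q.v k ω) ≤
          (nn (v + 1) D' * Cm (v + 1) D ^ 2) * 2 ^ (η / 2 * (S.F k).n) + K k :=
          d1.trans (add_le_add (mul_le_mul_of_nonneg_left hφ h0) d2)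
      _ ≤ (nn (v + 1) D' * Cm (v + 1) D ^ 2 + K k) * 2 ^ (η / 2 * (S.F k).n) := by nlinarith
      _ ≤ _ := mul_le_mul_of_nonneg_right (by linarith) (by positivity)
  · intro η hη
    have hc := cE_one (v + 1) D D'
    refine typ_mono Typ_true ?_
    filter_upwards [hcap, h8, (S.Sub_const (zero_le_one.trans hc)).eventually_le (show 0 < 2 * η by linarith)]
      with k c1 c2 c3 ω hω _
    have hn := (S.F k).pos
    rw [hJ]
    have d1 := c2 ω hω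
    have d2 := Jq_upm hD (L.G k ω) (c1 ω hω) (S.dl 1 k) (S.dl_pos 1 k) ((prs s τ).Q.v k ω) (Pi.single z 1)
    rw [single_dv, single_dv] at d2
    have d3 : 0 ≤ Jq (S.dl 1 k) (L.G k ω) ((prs s τ).Q.v k ω) z z := by
      have := Jq_nonneg (S.dl 1 k) (c1 ω hω).nonneg ((prs s τ).Q.v k ω) (Pi.single z 1)
      rwa [single_dv] at this
    have d4 : (2 : ℝ) ^ (2 * b * (S.F k).n) ≤ 1 + Jq (S.dl 1 k) (L.G k ω) ((prs s τ).Q.v k ω) z z := by
      have d5 : b ≤ Real.logb 2 (1 + Jq (S.dl 1 k) (L.G k ω) ((prs s τ).Q.v k ω) z z) / (2 * (S.F k).n) := d1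
      rw [le_div_iff₀ (by positivity)] at d5
      rw [Real.le_logb_iff_rpow_le (by norm_num) (by linarith)] at d5
      have e1 : b * (2 * (S.F k).n) = 2 * b * (S.F k).n := by ring
      rwa [e1] at d5
    have d6 : 1 + Jq (S.dl 1 k) (L.G k ω) ((prs s τ).Q.v k ω) z z ≤
        cE (v + 1) D D' * (1 + Jq (S.dl 1 k) (upm hD (L.G k ω)) ((prs s τ).Q.v k ω) z z) := by
      rw [mul_add, mul_one]
      exact add_le_add hc d2
    have d7 : cE (v + 1) D D' ≤ 2 ^ (2 * η * (S.F k).n) := by linarith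
    have d8 : 0 < 1 + Jq (S.dl 1 k) (upm hD (L.G k ω)) ((prs s τ).Q.v k ω) z z := by
      by_contra hh
      push Not at hh
      have := mul_nonneg (zero_le_one.trans hc) (neg_nonneg.mpr hh)
      linarith
    have d9 : (2 : ℝ) ^ (2 * η * (S.F k).n) * 2 ^ (2 * (b - η) * (S.F k).n) = 2 ^ (2 * b * (S.F k).n) := by
      rw [← Real.rpow_add (by norm_num)]
      congr 1; ring
    have d10 : (2 : ℝ) ^ (2 * η * (S.F k).n) * 2 ^ (2 * (b - η) * (S.F k).n) ≤ 2 ^ (2 * η * (S.F k).n) *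
        (1 + Jq (S.dl 1 k) (upm hD (L.G k ω)) ((prs s τ).Q.v k ω) z z) := by
      rw [d9]
      exact d4.trans (d6.trans (mul_le_mul_of_nonneg_right d7 d8.le))
    exact le_of_mul_le_mul_left d10 (by positivity)

/-- **[CUTF]** -/
theorem st_cutf : Pool.Agent.Helper87.NSL.ST_CUTF := by
  classical
  intro S N g r v s R V σ b _ hσ _ _ hfull hrec
  have h1 : ∀ q : Fin N, ∃ D₀ : ℕ, (∀ j, σ j ≠ q) → ∀ D', D₀ ≤ D' →
    ∃ G : ∀ k, (S.F k).Ω → Matrix (Mon (v + 1) D') (Mon (v + 1) D') ℝ,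
      (∀ᶠ k in UF, ∀ ω, (S.F k).μ ω ≠ 0 → PdM (G k ω)) ∧
      (∀ᶠ k in UF, ∀ ω ω', (S.F k).μ ω ≠ 0 → (S.F k).μ ω' ≠ 0 → (S.F k).Z ω ω' → V k ω ω' → G k ω = G k ω') ∧
      (∀ η : ℝ, 0 < η → Typ (fun k ω => phi (S.dl 1 k) (G k ω)
        ((pck s.Q (Fin.cons q σ : Fin (v + 1) → Fin N)).v k ω) ≤ 2 ^ (η * (S.F k).n))) ∧
      (∀ η : ℝ, 0 < η → Typ (fun k ω => 2 ^ (2 * (b - η) * (S.F k).n) ≤
        1 + Jq (S.dl 1 k) (G k ω) ((pck s.Q (Fin.cons q σ : Fin (v + 1) → Fin N)).v k ω) 0 0)) := by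
    intro q
    by_cases hq : ∀ j, σ j ≠ q
    · obtain ⟨D₀, h⟩ := cut_one hσ (hrec q hq)
      exact ⟨D₀, fun _ => h⟩
    · exact ⟨0, fun h => absurd h hq⟩
  choose D₀ hD₀ using h1
  set D : ℕ := Finset.univ.sup D₀ + 1 with hD
  have h2 : ∀ q, D₀ q ≤ D := fun q => (Finset.le_sup (Finset.mem_univ q)).trans (Nat.le_succ _)
  have h3 : ∀ q : Fin N, ∃ G : ∀ k, (S.F k).Ω → Matrix (Mon (v + 1) D) (Mon (v + 1) D) ℝ, (∀ j, σ j ≠ q) →
      (∀ᶠ k in UF, ∀ ω, (S.F k).μ ω ≠ 0 → PdM (G k ω)) ∧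
      (∀ᶠ k in UF, ∀ ω ω', (S.F k).μ ω ≠ 0 → (S.F k).μ ω' ≠ 0 → (S.F k).Z ω ω' → V k ω ω' → G k ω = G k ω') ∧
      (∀ η : ℝ, 0 < η → Typ (fun k ω => phi (S.dl 1 k) (G k ω)
        ((pck s.Q (Fin.cons q σ : Fin (v + 1) → Fin N)).v k ω) ≤ 2 ^ (η * (S.F k).n))) ∧
      (∀ η : ℝ, 0 < η → Typ (fun k ω => 2 ^ (2 * (b - η) * (S.F k).n) ≤
        1 + Jq (S.dl 1 k) (G k ω) ((pck s.Q (Fin.cons q σ : Fin (v + 1) → Fin N)).v k ω) 0 0)) := by
    intro q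
    by_cases hq : ∀ j, σ j ≠ q
    · obtain ⟨G, hG⟩ := hD₀ q hq D (h2 q)
      exact ⟨G, fun _ => hG⟩
    · exact ⟨fun _ _ => 1, fun h => absurd h hq⟩
  choose G hG using h3
  rw [prs_pck] at hfull
  exact ⟨D, G, Nat.le_add_left 1 _, {
    inj := hσ
    full := full_lit hfull
    pd := fun p hp => (hG p hp).1
    ms := fun p hp => (hG p hp).2.1
    sm := fun p hp => (hG p hp).2.2.1
    big := fun p hp => (hG p hp).2.2.2 }⟩

end

end Pool.Agent.Helper38.PUR
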