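import Pool.Agent.Helper38.PUR.Rec

/-! [PUR], the theorem: from a pair all of whose events have non-trivial K-forms to an event with a literal K-label over
which a maximal free family of coordinates is full and which knows a form of every other coordinate. -/

set_option autoImplicit false

namespace Pool.Agent.Helper38.PUR

open Finset Filter Topology Matrix Pool.Agent.Helper69.RK Pool.Agent.Helper31.EC Pool.Agent.Helper31.EC.Sp
open Pool.Agent.Helper40.EL Pool.Agent.Helper89.LX Pool.Agent.Helper3.LF Pool.Agent.Helper84.MT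
open Pool.Agent.Helper33.LIT Pool.Agent.Helper49.KL Pool.Agent.Helper3.KL
open Pool.Agent.Helper36.AM (STu)
open Pool.Agent.Helper87.NSL (cndR)
open Pool.Agent.Helper89.RAT (xz Jz zv)

noncomputable section

variable {N m v g D : ℕ} {ι : Type}

/-- pairs of a system and a resolution -/
structure Pr (N g : ℕ) (ι : Type) where
  S : Sp
  s : MSys S N (lin g) ι
  R : ∀ k, Setoid (S.F k).Ω

/-- the pair on an event of an extension -/
def Pr.imp (t : Pr N g ι) {T : Sp} (p : Pj T t.S) (A : ∀ k, (T.F k).Ω → Prop) (hA : 0 < ul (T.pr A)) : Pr N g ι :=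
  ⟨Sp.im p A, t.s.im p A hA, t.R⟩

/-- the pair on an event of its own space -/
def Pr.im (t : Pr N g ι) (A : ∀ k, (t.S.F k).Ω → Prop) (hA : 0 < ul (t.S.pr A)) : Pr N g ι :=
  t.imp (Pj.id t.S) A hA

/-- events of extensions of the kind `C`, several times; the kind contains the space itself -/
inductive Rch (C : ∀ T S : Sp, Pj T S → Prop) : Pr N g ι → Pr N g ι → Prop
  | refl (t : Pr N g ι) : Rch C t t
  | im {t t' : Pr N g ι} (h : Rch C t t') {T : Sp} (p : Pj T t'.S) (hp : C T t'.S p) (A : ∀ k, (T.F k).Ω → Prop)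
      (hA : 0 < ul (T.pr A)) : Rch C t (t'.imp p A hA)

variable {C : ∀ T S : Sp, Pj T S → Prop}

theorem Rch.trans {t t' t'' : Pr N g ι} (h : Rch C t t') (h' : Rch C t' t'') : Rch C t t'' := by
  induction h' with
  | refl => exact h
  | im _ p hp A hA ih => exact Rch.im ih p hp A hA

/-- the resolution knows the cells of the point -/
def Pr.Fin (t : Pr N g ι) : Prop := ∀ k, t.R k ≤ Setoid.ker (t.s.Q.cellv 1 k)

theorem Rch.fin {t t' : Pr N g ι} (h : Rch C t t') (hR : t.Fin) : t'.Fin := by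
  induction h with
  | refl => exact hR
  | im _ p hp A hA ih => exact fun k => ih k

/-- the coordinates `σ` are full over every literal K-label -/
def Fr (t : Pr N g ι) (σ : Fin v → Fin N) : Prop :=
  ∀ V, LK t.s t.R V → (v : ℝ) ≤ H (up1 (Lab.ofZ V) ((prs t.s σ).Q.dg 1))

/-- there is a non-trivial K-form -/
def Bad (t : Pr N g ι) : Prop := ∃ D, 1 ≤ D ∧ ∃ x : ∀ k, FD (t.S.F k) (Mon N D),
  (gaq t.s.Q D).OptfK (LC.kz fun k => fc (t.R k)) (cndR t.s t.R 0) x ∧ vol t.s.Q D x < N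

theorem vv_ext' {S : Sp} {P Q : S.VV m} (h : P.v = Q.v) : P = Q := by
  cases P; cases Q
  obtain rfl : _ = _ := h
  rfl

theorem prs_id {S : Sp} (s : MSys S N (lin g) ι) : (prs s (id : Fin N → Fin N)).Q = s.Q := by
  apply vv_ext'
  funext k ω i
  exact prs_v s id k ω i

/-- the number of free coordinates is less than the dimension -/
theorem Fr.lt [Finite ι] {t : Pr N g ι} {σ : Fin v → Fin N} (h : Fr t σ) (hb : Bad t) : v < N := by
  obtain ⟨D, hD, x, hx, hv⟩ := hb
  obtain ⟨σ', hlit, hopt⟩ := exists_litD _ hx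
  have h0 := Gau.AdfK.dm _ hopt.1
  have h1 := h σ'.Z ⟨hlit, h0⟩
  have h2 : H (up1 (lb (litFD σ')) (t.s.Q.dg 1)) ≤ vol t.s.Q D (litFD σ') :=
    Pool.Agent.Helper14.MC.cnt_vol t.s.Q hD (litFD σ') hopt.1.1
  have h3 : vol t.s.Q D (litFD σ') = vol t.s.Q D x := vol_optK_eq hopt hx
  have h4 : H (up1 (Lab.ofZ σ'.Z) ((prs t.s σ).Q.dg 1)) ≤ H (up1 (lb (litFD σ')) (t.s.Q.dg 1)) :=
    H_mono (up1_mono _ (prs_dg_le t.s σ 1))
  have h5 : (v : ℝ) < N := by linarith
  exact_mod_cast h5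

/-- a free family is full over every K-label -/
theorem Fr.lab [Finite ι] {t : Pr N g ι} {σ : Fin v → Fin N} (h : Fr t σ) (hST : STu v) (hR : t.Fin)
    {l : Lab t.S} (hl : ∀ i, Nul t.S (fun k => (l k).leak ((t.s.lf i).win 0 k)))
    (hK : ∀ᶠ k in UF, (l k).leak (fc (t.R k)) = 0) : (v : ℝ) ≤ H (up1 l ((prs t.s σ).Q.dg 1)) := by
  obtain ⟨D₁, hD₁⟩ := hST g
  obtain ⟨x, hx⟩ := (gaq (prs t.s σ).Q (max D₁ 1)).exists_optfK (LC.kz fun k => fc (t.R k))
    (cndR (prs t.s σ) t.R 0)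
  have h1 := stkd_lab (fun r => hD₁ (max D₁ 1) (le_max_left _ _) r) (prs t.s σ) (prs_R hR σ) (l := l)
    (fun i => hl i) hK hx
  obtain ⟨σ', hlit, hopt⟩ := exists_litD _ hx
  have h0 := Gau.AdfK.dm _ hopt.1
  rw [cndR_prs] at h0
  have h2 := h σ'.Z ⟨hlit, h0⟩
  have h3 : H (up1 (lb (litFD σ')) ((prs t.s σ).Q.dg 1)) ≤ vol (prs t.s σ).Q (max D₁ 1) (litFD σ') :=
    Pool.Agent.Helper14.MC.cnt_vol _ (le_max_right _ _) (litFD σ') hopt.1.1
  have h4 : vol (prs t.s σ).Q (max D₁ 1) (litFD σ') = vol (prs t.s σ).Q (max D₁ 1) x := vol_optK_eq hopt hx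
  have h5 : (v : ℝ) ≤ H (up1 (lb (litFD σ')) ((prs t.s σ).Q.dg 1)) := h2
  linarith

/-- the form of one more coordinate from a small K-form of the projection -/
theorem step_gain [Finite ι] {t : Pr N g ι} {σ : Fin v → Fin N} (hR : t.Fin) (hfr : Fr t σ) {q : Fin N} {D : ℕ}
    (hD : 1 ≤ D) {τ : Fin (v + 1) → Fin N} {z : Fin (v + 1)} {f : Fin v → Fin (v + 1)} (hτ : Function.Injective τ)
    (hz : τ z = q) (hf : ∀ j, f j ≠ z ∧ τ (f j) = σ j) (hf' : ∀ i, i ≠ z → ∃ j, f j = i)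
    {x : ∀ k, FD (t.S.F k) (Mon (v + 1) D)}
    (hx : (gaq (prs t.s τ).Q D).OptfK (LC.kz fun k => fc (t.R k)) (cndR t.s t.R 0) x)
    (hv : vol (prs t.s τ).Q D x < v + 1) :
    ∃ (A : ∀ k, (t.S.F k).Ω → Prop) (hA : 0 < ul (t.S.pr A)) (V : ∀ k, Setoid ((t.im A hA).S.F k).Ω) (b : ℝ), 0 < b ∧
      LK (t.im A hA).s (t.im A hA).R V ∧ Rec (t.im A hA).s (t.im A hA).R V σ q b := by
  obtain ⟨L, b, hb, hL, hLK, hA⟩ := gain_lf hR hfr hD hf hx hv
  refine ⟨fun k ω => b ≤ xz (prs t.s τ).Q z k ω (L.G k ω), hA, L.Z, b, hb, hLK.im (Pj.id t.S) _ hA, ?_⟩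
  exact rec_of_gain hD hτ hz hf hf' hL _ hA fun k ω h => h

/-- the form of the last coordinate -/
theorem step_top [Finite ι] {t : Pr (v + 1) g ι} {σ : Fin v → Fin (v + 1)} (hσ : Function.Injective σ)
    {q : Fin (v + 1)} (hq : ∀ j, σ j ≠ q) (hR : t.Fin) (hfr : Fr t σ) (hb : Bad t) :
    ∃ (A : ∀ k, (t.S.F k).Ω → Prop) (hA : 0 < ul (t.S.pr A)) (V : ∀ k, Setoid ((t.im A hA).S.F k).Ω) (b : ℝ), 0 < b ∧
      LK (t.im A hA).s (t.im A hA).R V ∧ Rec (t.im A hA).s (t.im A hA).R V σ q b := by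
  obtain ⟨D, hD, x, hx, hv⟩ := hb
  have e1 := prs_id t.s
  rw [← e1] at hx hv
  refine step_gain hR hfr (τ := id) (z := q) (f := σ) hD Function.injective_id rfl (fun j => ⟨hq j, rfl⟩) ?_ hx ?_
  · intro i hi
    by_contra hc
    push Not at hc
    have h1 : Function.Injective (fun o : Option (Option (Fin v)) => match o with
        | none => i | some none => q | some (some j) => σ j) := by
      intro a b hab
      match a, b with
      | none, none => rfl
      | none, some none => exact absurd hab hi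
      | none, some (some j) => exact absurd hab.symm (hc j)
      | some none, none => exact absurd hab.symm hi
      | some none, some none => rfl
      | some none, some (some j) => exact absurd hab.symm (hq j)
      | some (some j), none => exact absurd hab (hc j)
      | some (some j), some none => exact absurd hab (hq j)
      | some (some j), some (some j') => exact congrArg _ (congrArg _ (hσ hab))
    have h2 := Fintype.card_le_of_injective _ h1
    simp at h2
  · have : ((v + 1 : ℕ) : ℝ) = v + 1 := by push_cast; ring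
    linarith

/-- the form of one more coordinate, small dimensions -/
theorem step_small [Finite ι] (hST : STu (v + 1)) {t : Pr N g ι} {σ : Fin v → Fin N} (hσ : Function.Injective σ)
    {q : Fin N} (hq : ∀ j, σ j ≠ q) (hR : t.Fin) (hfr : Fr t σ)
    (hn : ¬ Fr t (Fin.snoc (α := fun _ => Fin N) σ q)) :
    ∃ (A : ∀ k, (t.S.F k).Ω → Prop) (hA : 0 < ul (t.S.pr A)) (V : ∀ k, Setoid ((t.im A hA).S.F k).Ω) (b : ℝ), 0 < b ∧
      LK (t.im A hA).s (t.im A hA).R V ∧ Rec (t.im A hA).s (t.im A hA).R V σ q b := by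
  set τ : Fin (v + 1) → Fin N := Fin.snoc (α := fun _ => Fin N) σ q with hτ
  have hn' : ∃ V, LK t.s t.R V ∧ H (up1 (Lab.ofZ V) ((prs t.s τ).Q.dg 1)) < ((v + 1 : ℕ) : ℝ) := by
    unfold Fr at hn
    push Not at hn
    exact hn
  obtain ⟨V, hV, hH⟩ := hn'
  obtain ⟨D₁, hD₁⟩ := hST g
  obtain ⟨x, hx⟩ := (gaq (prs t.s τ).Q (max D₁ 1)).exists_optfK (LC.kz fun k => fc (t.R k))
    (cndR (prs t.s τ) t.R 0)
  have h1 := stkd_lab (fun r => hD₁ (max D₁ 1) (le_max_left _ _) r) (prs t.s τ) (prs_R hR τ) (l := Lab.ofZ V)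
    (fun i => hV.2 (some i)) (kz_ofZ hV.1) hx
  rw [cndR_prs] at hx
  have hlast : τ (Fin.last v) = q := by rw [hτ]; exact Fin.snoc_last _ _
  have hcs : ∀ j : Fin v, τ j.castSucc = σ j := fun j => by rw [hτ]; exact Fin.snoc_castSucc _ _ _
  refine step_gain hR hfr (τ := τ) (z := Fin.last v) (f := Fin.castSucc) (le_max_right D₁ 1) ?_ hlast
    (fun j => ⟨(Fin.castSucc_lt_last j).ne, hcs j⟩) (fun i hi => ?_) hx ?_
  · intro a b hab
    induction a using Fin.lastCases with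
    | last =>
      induction b using Fin.lastCases with
      | last => rfl
      | cast j =>
        rw [hlast, hcs] at hab
        exact absurd hab.symm (hq j)
    | cast i =>
      induction b using Fin.lastCases with
      | last =>
        rw [hlast, hcs] at hab
        exact absurd hab (hq i)
      | cast j =>
        rw [hcs, hcs] at hab
        rw [hσ hab]
  · induction i using Fin.lastCases with
    | last => exact absurd rfl hi
    | cast j => exact ⟨j, rfl⟩
  · have h2 : ((v + 1 : ℕ) : ℝ) = v + 1 := by push_cast; ring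
    linarith

/-- partial results persist on events -/
theorem Rch.pers [Finite ι] {t t' : Pr N g ι} (h : Rch C t t') {F : Finset (Fin N)} {σ : Fin v → Fin N} {b : ℝ}
    (h0 : ∃ V, LK t.s t.R V ∧ ∀ q ∈ F, Rec t.s t.R V σ q b) :
    ∃ V, LK t'.s t'.R V ∧ ∀ q ∈ F, Rec t'.s t'.R V σ q b := by
  induction h with
  | refl => exact h0
  | im _ p hp A hA ih =>
    obtain ⟨V, h1, h2⟩ := ih
    exact ⟨V, h1.im p A hA, fun q hq => (h2 q hq).im p A hA⟩

theorem exists_step {P : ℕ → Prop} (h0 : P 0) {N : ℕ} (hN : ¬ P N) : ∃ v, P v ∧ ¬ P (v + 1) := by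
  by_contra hc
  push Not at hc
  exact hN (Nat.rec h0 (fun v hv => hc v hv) N)

/-- **[PUR]**: a pair all of whose events (of events ..) have non-trivial K-forms -/
theorem pur_rch [Finite ι] (hC : ∀ S, C S S (Pj.id S)) (hST : ∀ m, m < N → STu m) (t₀ : Pr N g ι) (hR : t₀.Fin) (hbad : ∀ t, Rch C t₀ t → Bad t) :
    ∃ t, Rch C t₀ t ∧ ∃ (v : ℕ) (σ : Fin v → Fin N) (b : ℝ) (V : ∀ k, Setoid (t.S.F k).Ω), v < N ∧
      Function.Injective σ ∧ 0 < b ∧ b < 1 ∧ (∀ t', Rch C t t' → Fr t' σ) ∧ LK t.s t.R V ∧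
      ∀ q, (∀ j, σ j ≠ q) → Rec t.s t.R V σ q b := by
  classical
  obtain ⟨v, ⟨t₁, ht₁, σ, hσ, hfr⟩, hmax⟩ := exists_step (P := fun v => ∃ t, Rch C t₀ t ∧ ∃ σ : Fin v → Fin N,
      Function.Injective σ ∧ ∀ t', Rch C t t' → Fr t' σ)
    ⟨t₀, Rch.refl t₀, Fin.elim0, fun a => a.elim0, fun t' _ V _ => by
      rw [Nat.cast_zero]
      exact H_nonneg _⟩ (N := N) (by
      rintro ⟨t, ht, σ, -, hf⟩
      exact lt_irrefl _ ((hf t (Rch.refl t)).lt (hbad t ht)))
  have hvN : v < N := (hfr t₁ (Rch.refl t₁)).lt (hbad t₁ ht₁)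
  have hone : ∀ t, Rch C t₁ t → ∀ q, (∀ j, σ j ≠ q) → ∃ t', Rch C t t' ∧ ∃ V b, 0 < b ∧ LK t'.s t'.R V ∧
      Rec t'.s t'.R V σ q b := by
    intro t ht q hq
    rcases Nat.lt_or_ge (v + 1) N with h1 | h1
    · have h2 : ∃ t', Rch C t t' ∧ ¬ Fr t' (Fin.snoc (α := fun _ => Fin N) σ q) := by
        by_contra hc
        push Not at hc
        apply hmax
        refine ⟨t, ht₁.trans ht, Fin.snoc (α := fun _ => Fin N) σ q, ?_, hc⟩
        intro a b hab
        induction a using Fin.lastCases with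
        | last =>
          induction b using Fin.lastCases with
          | last => rfl
          | cast j =>
            rw [Fin.snoc_last, Fin.snoc_castSucc] at hab
            exact absurd hab.symm (hq j)
        | cast i =>
          induction b using Fin.lastCases with
          | last =>
            rw [Fin.snoc_last, Fin.snoc_castSucc] at hab
            exact absurd hab (hq i)
          | cast j =>
            rw [Fin.snoc_castSucc, Fin.snoc_castSucc] at hab
            rw [hσ hab]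
      obtain ⟨t', ht', hn⟩ := h2
      obtain ⟨A, hA, V, b, hb, h3, h4⟩ := step_small (hST _ h1) hσ hq ((ht₁.trans (ht.trans ht')).fin hR)
        (hfr t' (ht.trans ht')) hn
      exact ⟨t'.im A hA, ht'.im _ (hC _) A hA, V, b, hb, h3, h4⟩
    · obtain rfl : N = v + 1 := by omega
      obtain ⟨A, hA, V, b, hb, h3, h4⟩ := step_top hσ hq ((ht₁.trans ht).fin hR) (hfr t ht) (hbad t (ht₁.trans ht))
      exact ⟨t.im A hA, (Rch.refl t).im _ (hC _) A hA, V, b, hb, h3, h4⟩
  have hall : ∀ F : Finset (Fin N), (∀ q ∈ F, ∀ j, σ j ≠ q) → ∃ t, Rch C t₁ t ∧ ∃ b, 0 < b ∧ b < 1 ∧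
      ∃ V, LK t.s t.R V ∧ ∀ q ∈ F, Rec t.s t.R V σ q b := by
    intro F
    induction F using Finset.induction_on with
    | empty => exact fun _ => ⟨t₁, Rch.refl t₁, 1 / 2, by norm_num, by norm_num, fun _ => ⊤, LK_top _ _,
        fun q hq => absurd hq (Finset.notMem_empty q)⟩
    | insert q F _ ih =>
      intro hF
      obtain ⟨t, ht, b, hb, hb1, hG⟩ := ih fun q' hq' => hF q' (Finset.mem_insert_of_mem hq')
      obtain ⟨t', ht', V', b', hb', hL', hR'⟩ := hone t ht q (hF q (Finset.mem_insert_self q F))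
      obtain ⟨V, hL, hV⟩ := ht'.pers hG
      have hI := hL.inf hL'
      refine ⟨t', ht.trans ht', min b b', lt_min hb hb', (min_le_left _ _).trans_lt hb1, _, hI, fun p hp => ?_⟩
      rcases Finset.mem_insert.mp hp with rfl | hp
      · exact (hR'.res (fun k => inf_le_right) hI).mono (min_le_right _ _)
      · exact ((hV p hp).res (fun k => inf_le_left) hI).mono (min_le_left _ _)
  obtain ⟨t, ht, b, hb, hb1, V, hV, hrec⟩ := hall (Finset.univ.filter fun q => ∀ j, σ j ≠ q) (fun q hq =>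
    (Finset.mem_filter.mp hq).2)
  exact ⟨t, ht₁.trans ht, v, σ, b, V, hvN, hσ, hb, hb1, fun t' ht' => hfr t' (ht.trans ht'), hV, fun q hq =>
    hrec q (Finset.mem_filter.mpr ⟨Finset.mem_univ q, hq⟩)⟩

theorem rch_cls {TT : ∀ S : Sp, MSys S N (lin g) ι → (∀ k, Setoid (S.F k).Ω) → Prop}
    (him : ∀ (S : Sp) (s : MSys S N (lin g) ι) (R : ∀ k, Setoid (S.F k).Ω), TT S s R → ∀ (T : Sp) (p : Pj T S),
      C T S p → ∀ (A : ∀ k, (T.F k).Ω → Prop) (hA : 0 < ul (T.pr A)), TT (Sp.im p A) (s.im p A hA) R)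
    {t t' : Pr N g ι} (h : Rch C t t') (h0 : TT t.S t.s t.R) : TT t'.S t'.s t'.R := by
  induction h with
  | refl => exact h0
  | im _ p hp A hA ih => exact him _ _ _ ih _ p hp A hA

/-- **[PUR]**, class form: `TT` a class of pairs closed under events of extensions of the kind `C` (which contains the space
itself) all of whose members have non-trivial K-forms. A member of the class, reached from the given one by events, has
free coordinates `σ` (full over EVERY K-label `l` of the member and of all pairs reached from it) and one literal K-label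
`V` which knows a form of every other coordinate with exponent at least `b` everywhere -/
theorem pur [Finite ι] (hC : ∀ S, C S S (Pj.id S)) (hST : ∀ m, m < N → STu m)
    (TT : ∀ S : Sp, MSys S N (lin g) ι → (∀ k, Setoid (S.F k).Ω) → Prop)
    (him : ∀ (S : Sp) (s : MSys S N (lin g) ι) (R : ∀ k, Setoid (S.F k).Ω), TT S s R → ∀ (T : Sp) (p : Pj T S),
      C T S p → ∀ (A : ∀ k, (T.F k).Ω → Prop) (hA : 0 < ul (T.pr A)), TT (Sp.im p A) (s.im p A hA) R)
    (hR : ∀ (S : Sp) (s : MSys S N (lin g) ι) (R : ∀ k, Setoid (S.F k).Ω), TT S s R →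
      ∀ k, R k ≤ Setoid.ker (s.Q.cellv 1 k))
    (hbad : ∀ (S : Sp) (s : MSys S N (lin g) ι) (R : ∀ k, Setoid (S.F k).Ω), TT S s R → ∃ D, 1 ≤ D ∧
      ∃ x : ∀ k, FD (S.F k) (Mon N D), (gaq s.Q D).OptfK (LC.kz fun k => fc (R k)) (cndR s R 0) x ∧ vol s.Q D x < N)
    (S : Sp) (s : MSys S N (lin g) ι) (R : ∀ k, Setoid (S.F k).Ω) (h : TT S s R) :
    ∃ (S' : Sp) (s' : MSys S' N (lin g) ι) (R' : ∀ k, Setoid (S'.F k).Ω), TT S' s' R' ∧ Rch C ⟨S, s, R⟩ ⟨S', s', R'⟩ ∧
      ∃ (v : ℕ) (σ : Fin v → Fin N) (b : ℝ) (V : ∀ k, Setoid (S'.F k).Ω), v < N ∧ Function.Injective σ ∧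
        0 < b ∧ b < 1 ∧ LK s' R' V ∧
        (∀ t, Rch C ⟨S', s', R'⟩ t → ∀ l : Lab t.S, (∀ i, Nul t.S (fun k => (l k).leak ((t.s.lf i).win 0 k))) →
          (∀ᶠ k in UF, (l k).leak (fc (t.R k)) = 0) → (v : ℝ) ≤ H (up1 l ((prs t.s σ).Q.dg 1))) ∧
        ∀ q, (∀ j, σ j ≠ q) → Rec s' R' V σ q b := by
  obtain ⟨t, ht, v, σ, b, V, hv, hσ, hb, hb1, hfr, hV, hrec⟩ := pur_rch (C := C) hC hST ⟨S, s, R⟩ (hR S s R h)
    fun t ht => hbad _ _ _ (rch_cls him ht h)
  refine ⟨t.S, t.s, t.R, rch_cls him ht h, ht, v, σ, b, V, hv, hσ, hb, hb1, hV, ?_, hrec⟩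
  intro t' ht' l hl hK
  exact (hfr t' ht').lab (hST v hv) (hR _ _ _ (rch_cls him (ht.trans ht') h)) hl hK

end

end Pool.Agent.Helper38.PUR
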