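import Pool.Agent.Helper38.PUR.Lit
import Pool.Agent.Helper3.KL.Std
import Pool.Agent.Helper89.RAK.Volz
import Pool.Agent.Helper49.KL.Rig
import Pool.Agent.Helper81.MT.Img
import Pool.Agent.Helper38.NSL.He3

/-! [PUR], part 1: coordinate projections of a system, literal K-labels, the gain of a literal form in one coordinate. -/

set_option autoImplicit false

namespace Pool.Agent.Helper38.PUR

open Finset Filter Topology Matrix Pool.Agent.Helper69.RK Pool.Agent.Helper31.EC Pool.Agent.Helper31.EC.Sp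
open Pool.Agent.Helper40.EL Pool.Agent.Helper89.LX Pool.Agent.Helper3.LF Pool.Agent.Helper84.MT
open Pool.Agent.Helper33.LIT Pool.Agent.Helper49.KL Pool.Agent.Helper3.KL
open Pool.Agent.Helper36.AM (STu)
open Pool.Agent.Helper87.NSL (cndR)
open Pool.Agent.Helper89.RAT (xz Jz zv)

noncomputable section

variable {S T : Sp} {N m v g D : ℕ} {ι : Type}

/-- the projection of a system to the coordinates `τ` -/
def prs (s : MSys S N (lin g) ι) (τ : Fin m → Fin N) : MSys S m (lin g) ι :=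
  s.img (PMap.coo S τ) le_rfl (fun D => le_of_eq (by rw [one_mul]))

theorem prs_v (s : MSys S N (lin g) ι) (τ : Fin m → Fin N) (k : ℕ) (ω : (S.F k).Ω) (i : Fin m) :
    (prs s τ).Q.v k ω i = s.Q.v k ω (τ i) := congrFun (PMap.coo_ev τ k ω (s.Q.v k ω)) i

theorem prs_im (s : MSys S N (lin g) ι) (τ : Fin m → Fin N) (p : Pj T S) (A : ∀ k, (T.F k).Ω → Prop)
    (hA : 0 < ul (T.pr A)) : prs (s.im p A hA) τ = (prs s τ).im p A hA := rfl

theorem cndR_prs (s : MSys S N (lin g) ι) (R : ∀ k, Setoid (S.F k).Ω) (τ : Fin m → Fin N) (c : ℝ) :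
    cndR (prs s τ) R c = cndR s R c := by
  funext i
  rcases i with _ | i
  · rfl
  · rfl

theorem prs_dg_le (s : MSys S N (lin g) ι) (τ : Fin m → Fin N) (r : ℝ) : (prs s τ).Q.dg r ≤ s.Q.dg r :=
  PMap.val_dg_le _ _ r

theorem prs_R {s : MSys S N (lin g) ι} {R : ∀ k, Setoid (S.F k).Ω} (hR : ∀ k, R k ≤ Setoid.ker (s.Q.cellv 1 k))
    (τ : Fin m → Fin N) : ∀ k, R k ≤ Setoid.ker ((prs s τ).Q.cellv 1 k) := by
  intro k ω ω' h
  have h1 : s.Q.cellv 1 k ω = s.Q.cellv 1 k ω' := hR k h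
  show (prs s τ).Q.cellv 1 k ω = (prs s τ).Q.cellv 1 k ω'
  funext i
  show ⌊(prs s τ).Q.v k ω i / S.dl 1 k⌋ = ⌊(prs s τ).Q.v k ω' i / S.dl 1 k⌋
  rw [prs_v, prs_v]
  exact congrFun h1 (τ i)

/-- LITERAL K-LABELS of the window `0` -/
def LK (s : MSys S N (lin g) ι) (R V : ∀ k, Setoid (S.F k).Ω) : Prop :=
  (∀ᶠ k in UF, R k ⊓ (S.F k).Z ≤ V k) ∧ (Lab.ofZ V).DMf (cndR s R 0)

theorem PLe_imd {p : Pj T S} {A : ∀ k, (T.F k).Ω → Prop} (hA : 0 < ul (T.pr A)) {X Y : Part S} (hXY : PLe X Y) :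
    PLe (X.im p A) (Y.im p A) := by
  have h1 : Nul T (fun k => h (X.im p A k) (Y.im p A k)) := by
    apply Nul.div_pr hA ((Lab.nul_pj p).mpr hXY) (fun k => h_nonneg _ _)
    intro k
    exact (Pool.Agent.Helper38.NSL.imap_h_le (p.fp k) (A k) (X k) (Y k)).trans (by linarith)
  exact (Lab.nul_pj p).mp h1

theorem cndR_im (s : MSys S N (lin g) ι) (R : ∀ k, Setoid (S.F k).Ω) (c : ℝ) (p : Pj T S)
    (A : ∀ k, (T.F k).Ω → Prop) (hA : 0 < ul (T.pr A)) (i : Option ι) :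
    cndR (S := Sp.im p A) (s.im p A hA) R c i = (cndR s R c i).im p A := by
  rcases i with _ | i
  · rfl
  · rfl

theorem LK.im {s : MSys S N (lin g) ι} {R V : ∀ k, Setoid (S.F k).Ω} (h : LK s R V) (p : Pj T S)
    (A : ∀ k, (T.F k).Ω → Prop) (hA : 0 < ul (T.pr A)) : LK (S := Sp.im p A) (s.im p A hA) R V := by
  refine ⟨h.1, (Lab.ofZ_DMf (S := Sp.im p A) V).mpr fun i => ?_⟩
  have h1 := PLe_imd (p := p) hA ((Lab.ofZ_DMf V).mp h.2 i)
  have e1 : (Part.im p A fun k => (fc (V k) : FL (S.F k))) = fun k => (fc (V k) : FL ((Sp.im p A).F k)) := rfl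
  rw [e1, ← cndR_im s R 0 p A hA i] at h1
  exact h1

theorem LK.inf {s : MSys S N (lin g) ι} {R V W : ∀ k, Setoid (S.F k).Ω} (h : LK s R V) (h' : LK s R W) :
    LK s R (fun k => V k ⊓ W k) := by
  refine ⟨?_, (Lab.ofZ_DMf _).mpr fun i => ?_⟩
  · filter_upwards [h.1, h'.1] with k a b using le_inf a b
  · have h1 := PLe.sup_le ((Lab.ofZ_DMf V).mp h.2 i) ((Lab.ofZ_DMf W).mp h'.2 i)
    have e1 : (fun k => (fc (V k ⊓ W k) : FL (S.F k))) = fun k => fc (V k) ⊔ fc (W k) := by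
      funext k
      rw [fc_inf]
    rw [e1]
    exact h1

theorem LK_top (s : MSys S N (lin g) ι) (R : ∀ k, Setoid (S.F k).Ω) : LK s R fun _ => ⊤ := by
  refine ⟨Eventually.of_forall fun k => le_top, (Lab.ofZ_DMf _).mpr fun i => ?_⟩
  apply PLe_of_le
  intro k
  have e1 : (fc (⊤ : Setoid (S.F k).Ω) : FL (S.F k)) = ⊥ := fc_top
  rw [e1]
  exact bot_le

end

end Pool.Agent.Helper38.PUR
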