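import Pool.Agent.Helper38.PUR.Prs

/-! [PUR], part 2: the gain of a literal form in one coordinate. -/

set_option autoImplicit false

namespace Pool.Agent.Helper38.PUR

open Finset Filter Topology Matrix Pool.Agent.Helper69.RK Pool.Agent.Helper31.EC Pool.Agent.Helper31.EC.Sp
open Pool.Agent.Helper40.EL Pool.Agent.Helper89.LX Pool.Agent.Helper3.LF Pool.Agent.Helper84.MT
open Pool.Agent.Helper33.LIT Pool.Agent.Helper49.KL Pool.Agent.Helper3.KL
open Pool.Agent.Helper36.AM (STu)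
open Pool.Agent.Helper87.NSL (cndR)
open Pool.Agent.Helper89.RAT (xz Jz zv)

noncomputable section

variable {S T : Sp} {N m v g D : ℕ} {ι : Type}

/-- the literal form of a section -/
def litLF {J : Type} {x : ∀ k, FD (S.F k) J} (σ : Sec (S := S) fun k => (x k).l) : LF S J where
  Z := σ.Z
  G := fun k ω => (litFD σ k).g ω
  meas := fun k ω ω' a b c d => ((litFD σ k).meas ω ω' a b c d).1

theorem litLF_fd {J : Type} {x : ∀ k, FD (S.F k) J} (σ : Sec (S := S) fun k => (x k).l) :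
    (litLF σ).fd = litFD σ := rfl

/-- Markov -/
theorem markov {F : FSp} {f : F.Ω → ℝ} {b C : ℝ} (hb : 0 ≤ b)
    (h : ∀ ω, F.μ ω ≠ 0 → 0 ≤ f ω ∧ f ω ≤ C) : ∑ ω, F.μ ω * f ω ≤ b + C * F.pb (fun ω => b ≤ f ω) := by
  classical
  have e1 : ∑ ω, F.μ ω * b = b := by
    have h4 : ∑ ω, F.μ ω = 1 := F.ms
    rw [← Finset.sum_mul, h4, one_mul]
  have e2 : ∑ ω, F.μ ω * f ω ≤ ∑ ω, F.μ ω * b + C * F.pb (fun ω => b ≤ f ω) := by
    rw [pb_sum_ite, Finset.mul_sum, ← Finset.sum_add_distrib]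
    apply Finset.sum_le_sum
    intro ω _
    by_cases h0 : F.μ ω = 0
    · rw [h0]
      simp
    · have h1 := h ω h0
      have h2 := F.nn ω
      by_cases h3 : b ≤ f ω
      · rw [if_pos h3, mul_one]
        nlinarith
      · rw [if_neg h3, mul_zero, mul_zero, add_zero]
        push Not at h3
        exact mul_le_mul_of_nonneg_left h3.le h2
  rwa [e1] at e2

/-- THE GAIN OF ONE COORDINATE -/
theorem gain_lf [Finite ι] {s : MSys S N (lin g) ι} {R : ∀ k, Setoid (S.F k).Ω}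
    (hR : ∀ k, R k ≤ Setoid.ker (s.Q.cellv 1 k)) {σ : Fin v → Fin N}
    (hfr : ∀ V, LK s R V → (v : ℝ) ≤ H (up1 (Lab.ofZ V) ((prs s σ).Q.dg 1)))
    (hD : 1 ≤ D) {τ : Fin m → Fin N} {z : Fin m} {f : Fin v → Fin m}
    (hf : ∀ j, f j ≠ z ∧ τ (f j) = σ j) {x : ∀ k, FD (S.F k) (Mon m D)}
    (hx : (gaq (prs s τ).Q D).OptfK (LC.kz fun k => fc (R k)) (cndR s R 0) x)
    (hv : vol (prs s τ).Q D x < v + 1) :
    ∃ (L : LF S (Mon m D)) (b : ℝ), 0 < b ∧
      (gaq (prs s τ).Q D).AdfK (LC.kz fun k => fc (R k)) (cndR s R 0) L.fd ∧ LK s R L.Z ∧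
      0 < ul (S.pr fun k ω => b ≤ xz (prs s τ).Q z k ω (L.G k ω)) := by
  obtain ⟨σ', hlit, hopt⟩ := exists_litD _ hx
  have h0 := Gau.AdfK.dm _ hopt.1
  have hLK : LK s R σ'.Z := ⟨hlit, h0⟩
  have h1 := (Pool.Agent.Helper89.RAK.slf_K (gaq (prs s τ).Q D) hopt).dmz hopt.1.1 (prs_R hR τ) z
  have h2 := Pool.Agent.Helper89.RAK.volz_P0 hD hopt.1.1 z h1 (prs s σ).Q f (fun j => (hf j).1) (fun k ω j => by
    rw [prs_v, prs_v, (hf j).2])
  have h3 := hfr σ'.Z hLK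
  have h4 : vol (prs s τ).Q D (litFD σ') = vol (prs s τ).Q D x := vol_optK_eq hopt hx
  have h5 : (v : ℝ) ≤ H (up1 (lb (litFD σ')) ((prs s σ).Q.dg 1)) := h3
  set γ : ℝ := (v : ℝ) + 1 - vol (prs s τ).Q D x with hγ
  have hγ0 : 0 < γ := by linarith
  have h6 : γ ≤ Pool.Agent.Helper89.RAT.zx (prs s τ).Q z (litFD σ') := by
    rw [h4] at h2
    linarith
  obtain ⟨C, hC, hb⟩ := Pool.Agent.Helper89.RAT.xz_bd z hopt.1.1
  have hb' : ∀ᶠ k in UF, ∀ ω, (S.F k).μ ω ≠ 0 → 0 ≤ xz (prs s τ).Q z k ω ((litLF σ').G k ω) ∧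
      xz (prs s τ).Q z k ω ((litLF σ').G k ω) ≤ C := hb
  have hUB : UB (S.pr fun k ω => γ / 2 ≤ xz (prs s τ).Q z k ω ((litLF σ').G k ω)) := UB_pr _
  have h7 : Pool.Agent.Helper89.RAT.zx (prs s τ).Q z (litFD σ') ≤
      γ / 2 + C * ul (S.pr fun k ω => γ / 2 ≤ xz (prs s τ).Q z k ω ((litLF σ').G k ω)) := by
    have t : Tendsto (fun k => γ / 2 + C * S.pr (fun k ω => γ / 2 ≤ xz (prs s τ).Q z k ω ((litLF σ').G k ω)) k) UF
        (𝓝 (γ / 2 + C * ul (S.pr fun k ω => γ / 2 ≤ xz (prs s τ).Q z k ω ((litLF σ').G k ω)))) :=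
      ((ul_tendsto hUB).const_mul C).const_add _
    refine le_of_tendsto_of_tendsto (ul_tendsto (Pool.Agent.Helper89.RAT.zv_UB z hopt.1.1)) t ?_
    filter_upwards [hb'] with k hk
    exact markov (F := S.F k) (by linarith) hk
  refine ⟨litLF σ', γ / 2, by linarith, hopt.1, hLK, ?_⟩
  by_contra hc
  push Not at hc
  have h8 := mul_le_mul_of_nonneg_left hc hC
  rw [mul_zero] at h8
  linarith

end

end Pool.Agent.Helper38.PUR
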