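import Pool.Agent.Helper49.KL.Lit

/-! LITERAL K-LABELS over a deep resolution (no condition is bounded, no maximality): every K-label is replaced by a
partition of the space which is a function of `R` and the base; an optimal K-form becomes literal. (Proofs of helper49
with one receiver less.) -/

set_option autoImplicit false

namespace Pool.Agent.Helper38.PUR

open Finset Filter Topology Matrix Pool.Agent.Helper69.RK Pool.Agent.Helper31.EC Pool.Agent.Helper40.EL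
open Pool.Agent.Helper33.LIT Pool.Agent.Helper89.LX Pool.Agent.Helper49.KL Pool.Agent.Helper38.NSL

noncomputable section

section lab
variable {F : FSp} (l : FLab F)

/-- a label without leak at `R` becomes a function of `R`: leaks, loss of information and one bad function are
controlled -/
theorem flitD {R : Setoid F.Ω} (hR : l.leak (fc R) = 0) {J : Type} [Fintype J] (A : J → Setoid F.Ω)
    (b : l.T.Ω → ℝ) (hb : ∀ τ, 0 ≤ b τ) :
    ∃ f : F.Ω → l.T.Ω, (∀ x, F.μ x ≠ 0 → l.p.π (f x) = x ∧ l.T.μ (f x) ≠ 0) ∧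
      (∀ x y, R x y → F.Z x y → l.V (f x) (f y)) ∧
      ∑ j, h (fc (Setoid.comap f l.V)) (fc (A j)) + ∑ x, F.μ x * b (f x) ≤
        ∑ j, (6 * l.leak (fc (A j)) + 30) + 2 * ∑ τ, l.T.μ τ * b τ := by
  classical
  obtain ⟨w, hw, hcon, hs⟩ := lit_finK F.μ F.nn F.ms (kr l) (kr_nonneg l) (kr_sum l) (fun j => cg (A j))
    (fun j c v => cpk l.T.μ (mk l) (fun τ => cg (A j) (l.p.π τ)) c v) (fun j c v => cpk_nonneg l.T.nn _ _)
    (fun j c => cpk_sum_le l.T.nn _) (by
      intro j x v hx hv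
      obtain ⟨τ, a1, a2, a3⟩ := kr_ne l hx hv
      have h1 := cpk_pos (f := mk l) (g := fun τ => cg (A j) (l.p.π τ)) l.T.nn a3
      rwa [a1, a2] at h1) (fun x v => mb l b x v)
    (fun x v => mb_nonneg l hb x v)
  have h1 : ∀ x, F.μ x ≠ 0 → ∃ τ, l.p.π τ = x ∧ mk l τ = w x ∧ l.T.μ τ ≠ 0 ∧ b τ ≤ mb l b x (w x) :=
    fun x hx => exists_mb l b hx (hw x)
  have hcls : ∀ x y, F.μ x ≠ 0 → F.μ y ≠ 0 → R x y → F.Z x y → w x = w y := by
    intro x y hx hy h2 h3
    apply hcon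
    funext v
    rw [kr_of_leak l R hR hx v, kr_of_leak l R hR hy v]
    exact qk_congr l R (Quotient.sound (s := R ⊓ F.Z) ⟨h2, h3⟩) v
  set f1 : F.Ω → l.T.Ω := fun x => if hx : F.μ x ≠ 0 then (h1 x hx).choose else (exists_T l).some with hf1d
  have hf1' : ∀ x, F.μ x ≠ 0 → l.p.π (f1 x) = x ∧ mk l (f1 x) = w x ∧ l.T.μ (f1 x) ≠ 0 ∧ b (f1 x) ≤ mb l b x (w x) := by
    intro x hx
    have h2 : f1 x = (h1 x hx).choose := by
      rw [hf1d]
      simp only
      rw [dif_pos hx]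
    rw [h2]
    exact (h1 x hx).choose_spec
  set f : F.Ω → l.T.Ω := fun x => if F.μ x ≠ 0 then f1 x else
    if h2 : ∃ y, F.μ y ≠ 0 ∧ R x y ∧ F.Z x y then f1 h2.choose else (exists_T l).some with hf
  have hfp : ∀ x, F.μ x ≠ 0 → f x = f1 x := fun x hx => if_pos hx
  have hf1 : ∀ x, F.μ x ≠ 0 → l.p.π (f x) = x ∧ mk l (f x) = w x ∧ l.T.μ (f x) ≠ 0 ∧ b (f x) ≤ mb l b x (w x) := by
    intro x hx
    rw [hfp x hx]
    exact hf1' x hx
  have hfv : ∀ x y, F.μ y ≠ 0 → R x y → F.Z x y → mk l (f x) = w y := by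
    intro x y hy h2 h3
    by_cases hx : F.μ x ≠ 0
    · rw [(hf1 x hx).2.1]
      exact hcls x y hx hy h2 h3
    · have h4 : ∃ y, F.μ y ≠ 0 ∧ R x y ∧ F.Z x y := ⟨y, hy, h2, h3⟩
      have h5 : f x = f1 h4.choose := by
        rw [hf]
        simp only
        rw [if_neg hx, dif_pos h4]
      rw [h5, (hf1' _ h4.choose_spec.1).2.1]
      exact hcls _ _ h4.choose_spec.1 hy (R.trans (R.symm h4.choose_spec.2.1) h2)
        (F.Z.trans (F.Z.symm h4.choose_spec.2.2) h3)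
  have hlit : ∀ x y, R x y → F.Z x y → l.V (f x) (f y) := by
    intro x y h2 h3
    by_cases h4 : ∃ z, F.μ z ≠ 0 ∧ R x z ∧ F.Z x z
    · obtain ⟨z, hz, h5, h6⟩ := h4
      apply (Quotient.eq (r := l.V)).mp
      exact (hfv x z hz h5 h6).trans (hfv y z hz (R.trans (R.symm h2) h5) (F.Z.trans (F.Z.symm h3) h6)).symm
    · have h5 : ¬ ∃ z, F.μ z ≠ 0 ∧ R y z ∧ F.Z y z := fun ⟨z, hz, h5, h6⟩ =>
        h4 ⟨z, hz, R.trans h2 h5, F.Z.trans h3 h6⟩
      have e1 : ∀ x, (¬ ∃ z, F.μ z ≠ 0 ∧ R x z ∧ F.Z x z) → f x = (exists_T l).some := by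
        intro x hx
        rw [hf]
        simp only
        rw [if_neg (fun h => hx ⟨x, h, R.refl x, F.Z.refl x⟩), dif_neg hx]
      rw [e1 x h4, e1 y h5]
  refine ⟨f, fun x hx => ⟨(hf1 x hx).1, (hf1 x hx).2.2.1⟩, hlit, ?_⟩
  have hsec := fun B => h_sec l (fun x hx => (hf1 x hx).2.1) B
  have e1 : ∀ j ∈ (univ : Finset J), h (fc (Setoid.comap f l.V)) (fc (A j)) = CH F.μ w (cg (A j)) := fun j _ => hsec _
  rw [Finset.sum_congr rfl e1]
  have e3 : ∑ x, F.μ x * b (f x) ≤ ∑ x, F.μ x * mb l b x (w x) := by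
    refine Finset.sum_le_sum fun x _ => ?_
    by_cases hx : F.μ x = 0
    · rw [hx, zero_mul, zero_mul]
    · exact mul_le_mul_of_nonneg_left (hf1 x hx).2.2.2 (F.nn x)
  have e6 : ∀ j ∈ (univ : Finset J), 6 * ∑ x, F.μ x * ∑ v, kr l x v * (Real.logb 2 (kr l x v) -
      Real.logb 2 (cpk l.T.μ (mk l) (fun τ => cg (A j) (l.p.π τ)) (cg (A j) x) v)) + 30 =
      6 * l.leak (fc (A j)) + 30 := by
    intro j _
    rw [leak_sum]
  rw [Finset.sum_congr rfl e6, mb_sum l b] at hs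
  linarith


end lab

variable {S : Sp} {l : Lab S} {ι : Type} {R : ∀ k, Setoid (S.F k).Ω}

/-- THEOREM LIT-K: a maximal label of the class of labels without leak at `R` is a partition of the space itself, a
function of `R` and the base; a function with mean null on the label keeps mean null -/
theorem exists_secD [Finite ι] {A : ι → Part S} (hl : l.DMf A) (hlK : (LC.kz fun k => fc (R k)).ev l)
    (b : ∀ k, (l k).T.Ω → ℝ) (hb0 : ∀ k τ, 0 ≤ b k τ)
    (hb : Tendsto (fun k => ∑ τ, (l k).T.μ τ * b k τ) UF (𝓝 0)) :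
    ∃ σ : Sec l, (∀ᶠ k in UF, R k ⊓ (S.F k).Z ≤ σ.Z k) ∧ (Lab.ofZ σ.Z).DMf A ∧
      Tendsto (fun k => ∑ x, (S.F k).μ x * b k (σ.f k x)) UF (𝓝 0) := by
  classical
  have : Fintype ι := Fintype.ofFinite ι
  have hrep : ∀ i k, ∃ B : Setoid (S.F k).Ω, fc B = A i k := fun i k =>
    fc_ind (p := fun x => ∃ B : Setoid (S.F k).Ω, fc B = x) (fun B => ⟨B, rfl⟩) (A i k)
  choose B hB using hrep
  have hn : ∀ k, 0 < (S.F k).n := fun k => (S.F k).pos
  have h1 : ∀ k, ∃ f : (S.F k).Ω → (l k).T.Ω, (∀ x, (S.F k).μ x ≠ 0 → (l k).p.π (f x) = x ∧ (l k).T.μ (f x) ≠ 0) ∧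
      ((l k).leak (fc (R k)) = 0 → ∀ x y, R k x y → (S.F k).Z x y → (l k).V (f x) (f y)) ∧
      ((l k).leak (fc (R k)) = 0 → ∑ j, h (fc (Setoid.comap f (l k).V)) (fc (B j k)) +
        ∑ x, (S.F k).μ x * ((S.F k).n * b k (f x)) ≤ ∑ j, (6 * (l k).leak (fc (B j k)) + 30) +
          2 * ∑ τ, (l k).T.μ τ * ((S.F k).n * b k τ)) := by
    intro k
    by_cases h0 : (l k).leak (fc (R k)) = 0
    · obtain ⟨f, a1, a2, a3⟩ := flitD (l k) h0 (fun i => B i k) (fun τ => (S.F k).n * b k τ)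
        (fun τ => mul_nonneg (hn k).le (hb0 k τ))
      exact ⟨f, a1, fun _ => a2, fun _ => a3⟩
    · obtain ⟨f, a1, a3⟩ := flit (l k) (fun i => B i k) (fun τ => (S.F k).n * b k τ)
        (fun τ => mul_nonneg (hn k).le (hb0 k τ))
      exact ⟨f, a1, fun h => absurd h h0, fun h => absurd h h0⟩
  choose f hf hlit hs using h1
  set Z : ∀ k, Setoid (S.F k).Ω := fun k => Setoid.comap (f k) (l k).V with hZ
  set E : ℕ → ℝ := fun k => ∑ j, (6 * (l k).leak (A j k) + 30) +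
    2 * ((S.F k).n * ∑ τ, (l k).T.μ τ * b k τ) with hE
  have hs' : ∀ᶠ k in UF, ∑ j, h (fc (Z k)) (A j k) +
      (S.F k).n * ∑ x, (S.F k).μ x * b k (f k x) ≤ E k := by
    filter_upwards [hlK] with k hk
    have h2 := hs k hk
    have e1 : ∑ j, h (fc (Z k)) (fc (B j k)) = ∑ j, h (fc (Z k)) (A j k) :=
      Finset.sum_congr rfl fun j _ => by rw [hB]
    have e2 : ∑ j, (6 * (l k).leak (fc (B j k)) + 30) = ∑ j, (6 * (l k).leak (A j k) + 30) :=
      Finset.sum_congr rfl fun j _ => by rw [hB]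
    have e3 : ∑ x, (S.F k).μ x * ((S.F k).n * b k (f k x)) = (S.F k).n * ∑ x, (S.F k).μ x * b k (f k x) := by
      rw [Finset.mul_sum]
      exact Finset.sum_congr rfl fun x _ => by ring
    have e4 : ∑ τ, (l k).T.μ τ * ((S.F k).n * b k τ) = (S.F k).n * ∑ τ, (l k).T.μ τ * b k τ := by
      rw [Finset.mul_sum]
      exact Finset.sum_congr rfl fun τ _ => by ring
    rw [e2, e3, e4] at h2
    rw [← e1]
    exact h2
  have hEn : Nul S E := by
    have a1 : Nul S (fun k => ∑ j, (6 * (l k).leak (A j k) + 30)) :=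
      Nul.finset_sum _ fun j _ => ((hl j).const_mul 6).add (Nul_const S 30)
    have a3 : Nul S (fun k => 2 * ((S.F k).n * ∑ τ, (l k).T.μ τ * b k τ)) := by
      apply Nul.const_mul
      unfold Nul
      refine hb.congr fun k => ?_
      rw [mul_div_cancel_left₀ _ (hn k).ne']
    exact a1.add a3
  have p1 : ∀ k, 0 ≤ ∑ j, h (fc (Z k)) (A j k) := fun k => Finset.sum_nonneg fun j _ => h_nonneg _ _
  have p3 : ∀ k, 0 ≤ (S.F k).n * ∑ x, (S.F k).μ x * b k (f k x) := fun k =>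
    mul_nonneg (hn k).le (Finset.sum_nonneg fun x _ => mul_nonneg ((S.F k).nn x) (hb0 k _))
  have hleak : ∀ i, PLe (fun k => fc (Z k)) (A i) := by
    intro i
    refine hEn.of_le (Eventually.of_forall fun k => h_nonneg _ _) ?_
    filter_upwards [hs'] with k h3
    have h4 : h (fc (Z k)) (A i k) ≤ ∑ j, h (fc (Z k)) (A j k) :=
      Finset.single_le_sum (f := fun j => h (fc (Z k)) (A j k)) (fun j _ => h_nonneg _ _) (mem_univ i)
    linarith [p3 k]
  have hDM : (Lab.ofZ Z).DMf A := (Lab.ofZ_DMf Z).mpr hleak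
  have hZR : ∀ᶠ k in UF, R k ⊓ (S.F k).Z ≤ Z k := by
    filter_upwards [hlK] with k hk
    intro x y hxy
    exact hlit k hk x y hxy.1 hxy.2
  refine ⟨⟨f, fun k x hx => (hf k x hx).1, fun k x hx => (hf k x hx).2⟩, hZR, hDM, ?_⟩
  · refine tendsto_of_tendsto_of_tendsto_of_le_of_le' tendsto_const_nhds hEn ?_ ?_
    · exact Eventually.of_forall fun k => Finset.sum_nonneg fun x _ => mul_nonneg ((S.F k).nn x) (hb0 k _)
    · filter_upwards [hs'] with k h4
      rw [le_div_iff₀ (hn k), mul_comm]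
      linarith [p1 k]




section form
variable {ι : Type} [Fintype ι] [DecidableEq ι] (Φ : Gau S ι) {κ : Type}

/-- LITERAL CANONICAL FORM: the maximal label without leak at `R` which carries an optimal form can be taken as a
partition of the space itself, a function of `R` and the base -/
theorem exists_litD [Finite κ] {A : κ → Part S} {x : ∀ k, FD (S.F k) ι}
    (hx : Φ.OptfK (LC.kz fun k => fc (R k)) A x) :
    ∃ σ : Sec (S := S) fun k => (x k).l, (∀ᶠ k in UF, R k ⊓ (S.F k).Z ≤ σ.Z k) ∧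
      Φ.OptfK (LC.kz fun k => fc (R k)) A (litFD σ) := by
  classical
  have hn : ∀ k, 0 < (S.F k).n := fun k => (S.F k).pos
  -- the scale
  have hG : ∀ j : ℕ, ∀ᶠ k in UF,
      ((x k).jj (x k)).l.T.pb (fun w => ¬ ∀ v, qf (((x k).jj (x k)).g' w) v ≤
        2 ^ (1 / ((j : ℝ) + 1) * (S.F k).n) * qf (((x k).jj (x k)).g w) v) ≤ 1 / ((j : ℝ) + 1) ∧
      (x k).l.T.pb (fun τ => ¬ Φ.φ k ((x k).l.p.π τ) ((x k).g τ) ≤ 2 ^ (1 / ((j : ℝ) + 1) * (S.F k).n)) ≤
        1 / ((j : ℝ) + 1) := by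
    intro j
    have h5 : (0 : ℝ) < 1 / ((j : ℝ) + 1) := by positivity
    filter_upwards [(Gau.OptfK.dom Φ hx hx.1 _ h5).eventually (gt_mem_nhds h5), hx.1.1 _ h5] with k a b
    exact ⟨a.le, b.2.2.1⟩
  obtain ⟨_, J, hJ, _, hJ'⟩ := dia' (X := fun _ => Unit) (fun _ _ => ()) (fun j k _ =>
    ((x k).jj (x k)).l.T.pb (fun w => ¬ ∀ v, qf (((x k).jj (x k)).g' w) v ≤
        2 ^ (1 / ((j : ℝ) + 1) * (S.F k).n) * qf (((x k).jj (x k)).g w) v) ≤ 1 / ((j : ℝ) + 1) ∧
      (x k).l.T.pb (fun τ => ¬ Φ.φ k ((x k).l.p.π τ) ((x k).g τ) ≤ 2 ^ (1 / ((j : ℝ) + 1) * (S.F k).n)) ≤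
        1 / ((j : ℝ) + 1)) hG
  set e : ℕ → ℝ := fun k => 1 / ((J k : ℝ) + 1) with he
  have he0 : Tendsto e UF (𝓝 0) := tendsto_one_div_add_atTop_nhds_zero_nat.comp hJ
  set b : ∀ k, ((fun k => (x k).l) k).T.Ω → ℝ := fun k τ => badc (x k) (2 ^ (e k * (S.F k).n)) τ +
    (if Φ.φ k ((x k).l.p.π τ) ((x k).g τ) ≤ 2 ^ (e k * (S.F k).n) then 0 else 1) with hb
  have hb0 : ∀ k τ, 0 ≤ b k τ := by
    intro k τ
    refine add_nonneg (badc_nonneg _ _ _) ?_
    split_ifs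
    · exact le_rfl
    · exact zero_le_one
  have hbm : Tendsto (fun k => ∑ τ, ((fun k => (x k).l) k).T.μ τ * b k τ) UF (𝓝 0) := by
    have h0 : Tendsto (fun k => e k + e k) UF (𝓝 0) := by
      have := he0.add he0
      rwa [add_zero] at this
    refine tendsto_of_tendsto_of_tendsto_of_le_of_le' tendsto_const_nhds h0 ?_ ?_
    · exact Eventually.of_forall fun k => Finset.sum_nonneg fun τ _ => mul_nonneg ((x k).l.T.nn τ) (hb0 k τ)
    · filter_upwards [hJ'] with k hk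
      have h1 : ∑ τ, (x k).l.T.μ τ * b k τ = ∑ τ, (x k).l.T.μ τ * badc (x k) (2 ^ (e k * (S.F k).n)) τ +
          (x k).l.T.pb (fun τ => ¬ Φ.φ k ((x k).l.p.π τ) ((x k).g τ) ≤ 2 ^ (e k * (S.F k).n)) := by
        rw [pb_sum_ite, ← Finset.sum_add_distrib]
        apply Finset.sum_congr rfl
        intro τ _
        rw [hb]
        simp only
        rw [mul_add]
        congr 2
        by_cases h2 : Φ.φ k ((x k).l.p.π τ) ((x k).g τ) ≤ 2 ^ (e k * (S.F k).n)
        · rw [if_pos h2, if_neg (not_not.mpr h2)]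
        · rw [if_neg h2, if_pos h2]
      show ∑ τ, (x k).l.T.μ τ * b k τ ≤ _
      rw [h1, badc_mean]
      exact add_le_add hk.1 hk.2
  obtain ⟨σ, hlit, hmax, hσ⟩ := exists_secD (Gau.AdfK.dm _ hx.1) hx.1.2 b hb0 hbm
  refine ⟨σ, hlit, ?_⟩
  -- the two parts of the mean along the section
  have hp1 : ∀ k, (x k).l.T.pb (fun τ => ¬ ∀ v, qf ((x k).g τ) v ≤
      2 ^ (e k * (S.F k).n) * qf ((x k).g (σ.f k ((x k).l.p.π τ))) v) ≤ ∑ ω, (S.F k).μ ω * b k (σ.f k ω) := by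
    intro k
    rw [← badc_sec (x k) _ (f := σ.f k) (fun ω h => σ.pr k ω h)]
    apply Finset.sum_le_sum
    intro ω _
    apply mul_le_mul_of_nonneg_left _ ((S.F k).nn ω)
    rw [hb]
    simp only
    have : (0 : ℝ) ≤ if Φ.φ k ((x k).l.p.π (σ.f k ω)) ((x k).g (σ.f k ω)) ≤ 2 ^ (e k * (S.F k).n) then 0 else 1 := by
      split_ifs
      · exact le_rfl
      · exact zero_le_one
    linarith
  have hp2 : ∀ k, (S.F k).pb (fun ω => ¬ Φ.φ k ω ((x k).g (σ.f k ω)) ≤ 2 ^ (e k * (S.F k).n)) ≤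
      ∑ ω, (S.F k).μ ω * b k (σ.f k ω) := by
    intro k
    rw [pb_sum_ite]
    apply Finset.sum_le_sum
    intro ω _
    by_cases h0 : (S.F k).μ ω = 0
    · rw [h0, zero_mul, zero_mul]
    · apply mul_le_mul_of_nonneg_left _ ((S.F k).nn ω)
      rw [hb]
      simp only
      have e1 : (x k).l.p.π (σ.f k ω) = ω := σ.pr k ω h0
      have h3 := badc_nonneg (x k) (2 ^ (e k * (S.F k).n)) (σ.f k ω)
      by_cases h2 : Φ.φ k ω ((x k).g (σ.f k ω)) ≤ 2 ^ (e k * (S.F k).n)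
      · rw [if_neg (not_not.mpr h2), e1, if_pos h2]
        linarith
      · rw [if_pos h2, e1, if_neg h2]
        linarith
  have hadm : Φ.AdfK (LC.kz fun k => fc (R k)) A (litFD σ) := by
    refine ⟨fun η hη => ?_, kz_ofZ hlit⟩
    have hL : ∀ᶠ k in UF, ∀ i, ((Lab.ofZ σ.Z) k).leak (A i k) ≤ η * (S.F k).n := by
      rw [eventually_all]
      intro i
      filter_upwards [(hmax i).eventually (gt_mem_nhds hη)] with k hk
      have h1 := (div_lt_iff₀ (hn k)).mp hk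
      exact h1.le
    filter_upwards [hL, hx.1.1 1 one_pos, hσ.eventually (gt_mem_nhds hη), he0.eventually (gt_mem_nhds hη)]
      with k h1 h2 h3 h4
    have h5 : (2 : ℝ) ^ (e k * (S.F k).n) ≤ 2 ^ (η * (S.F k).n) :=
      Real.rpow_le_rpow_of_exponent_le (by norm_num) (mul_le_mul_of_nonneg_right h4.le (hn k).le)
    have h6 : (S.F k).pb (fun ω => ¬ Φ.φ k ω ((x k).g (σ.f k ω)) ≤ 2 ^ (η * (S.F k).n)) ≤ η := by
      refine le_trans ((S.F k).pb_mono ?_) ((hp2 k).trans h3.le)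
      intro ω _ h7 h8
      exact h7 (h8.trans h5)
    refine ⟨h1, fun ω hω => ?_, h6, h6⟩
    have h7 := (h2.2.1 (σ.f k ω) (σ.sp k ω hω)).1
    exact ⟨h7, h7⟩
  refine ⟨hadm, fun y hy => (hx.2 y hy).trans ?_⟩
  set c0 : ℝ := (Fintype.card ι : ℝ) with hc0
  have hsc : ∀ᶠ k in UF, (x k).sc / (S.F k).n ≤ (litFD σ k).sc / (S.F k).n +
      (c0 * e k + c0 * (Φ.C + 1) * ∑ ω, (S.F k).μ ω * b k (σ.f k ω)) := by
    filter_upwards [hx.1.1 1 one_pos] with k h2
    have e1 : (litFD σ k).sc = ∑ τ, (x k).l.T.μ τ * Real.logb 2 ((x k).g (σ.f k ((x k).l.p.π τ))).det :=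
      (sum_push (x k).l.p (fun ω => Real.logb 2 ((x k).g (σ.f k ω)).det)).symm
    have h3 : (x k).sc ≤ (litFD σ k).sc + c0 * (e k * (S.F k).n) + c0 * ((Φ.C + 1) * (S.F k).n) *
        (x k).l.T.pb (fun τ => ¬ ∀ v, qf ((x k).g τ) v ≤
          2 ^ (e k * (S.F k).n) * qf ((x k).g (σ.f k ((x k).l.p.π τ))) v) := by
      have e2 : c0 * (e k * (S.F k).n) = ∑ τ, (x k).l.T.μ τ * (c0 * (e k * (S.F k).n)) := by
        rw [← Finset.sum_mul]
        have : ∑ τ, (x k).l.T.μ τ = 1 := (x k).l.T.ms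
        rw [this, one_mul]
      rw [e1, e2, pb_sum_ite, Finset.mul_sum, ← Finset.sum_add_distrib, ← Finset.sum_add_distrib]
      unfold FD.sc
      apply Finset.sum_le_sum
      intro τ _
      by_cases h0 : (x k).l.T.μ τ = 0
      · simp [h0]
      · have hτ := (h2.2.1 τ h0).1
        have hπ := (x k).l.p.supp τ h0
        have hf := (h2.2.1 (σ.f k ((x k).l.p.π τ)) (σ.sp k _ hπ)).1
        have hμ : 0 ≤ (x k).l.T.μ τ := (x k).l.T.nn τ
        have hek : 0 ≤ c0 * (e k * (S.F k).n) := by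
          have h9 : 0 ≤ e k := by
            rw [he]
            positivity
          have := (hn k).le
          positivity
        by_cases hg : ∀ v, qf ((x k).g τ) v ≤ 2 ^ (e k * (S.F k).n) * qf ((x k).g (σ.f k ((x k).l.p.π τ))) v
        · rw [if_neg (not_not.mpr hg), mul_zero, mul_zero, add_zero, ← mul_add]
          apply mul_le_mul_of_nonneg_left _ hμ
          have h5 := Pool.Agent.Helper95.LF.det_le_pow hf.pdM hτ.pdM (K := 2 ^ (e k * (S.F k).n)) (by positivity) hg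
          have h6 : 0 < ((x k).g τ).det := zero_lt_one.trans_le hτ.one_le
          have h7 : 0 < ((x k).g (σ.f k ((x k).l.p.π τ))).det := zero_lt_one.trans_le hf.one_le
          have h8 := Real.logb_le_logb_of_le (b := 2) (by norm_num) h6 h5
          rw [Real.logb_mul (by positivity) h7.ne', Real.logb_pow, Real.logb_rpow (by norm_num) (by norm_num)] at h8
          linarith
        · rw [if_pos hg, mul_one]
          have h5 := logdet_le (Φ.one_le_cp k) hτ
          rw [Φ.logb_cp] at h5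
          have h6 := logdet_nonneg hf
          have h7 : (x k).l.T.μ τ * Real.logb 2 ((x k).g τ).det ≤
              (x k).l.T.μ τ * (Real.logb 2 ((x k).g (σ.f k ((x k).l.p.π τ))).det + c0 * (e k * (S.F k).n) +
                c0 * ((Φ.C + 1) * (S.F k).n)) := by
            apply mul_le_mul_of_nonneg_left _ hμ
            linarith
          linarith [h7]
    have h4 := hp1 k
    have h5 : 0 ≤ c0 * ((Φ.C + 1) * (S.F k).n) := by
      have := (hn k).le
      have := Φ.C0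
      positivity
    have h6 := mul_le_mul_of_nonneg_left h4 h5
    have h7 : (x k).sc ≤ (litFD σ k).sc + c0 * (e k * (S.F k).n) + c0 * ((Φ.C + 1) * (S.F k).n) *
        ∑ ω, (S.F k).μ ω * b k (σ.f k ω) := h3.trans (by linarith)
    rw [div_le_iff₀ (hn k)]
    have h8 : ((litFD σ k).sc / (S.F k).n + (c0 * e k + c0 * (Φ.C + 1) * ∑ ω, (S.F k).μ ω * b k (σ.f k ω))) *
        (S.F k).n = (litFD σ k).sc + c0 * (e k * (S.F k).n) + c0 * ((Φ.C + 1) * (S.F k).n) *
        ∑ ω, (S.F k).μ ω * b k (σ.f k ω) := by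
      rw [add_mul, div_mul_cancel₀ _ (hn k).ne']
      ring
    rw [h8]
    exact h7
  have hδ : Tendsto (fun k => c0 * e k + c0 * (Φ.C + 1) * ∑ ω, (S.F k).μ ω * b k (σ.f k ω)) UF (𝓝 0) := by
    have := (he0.const_mul c0).add (hσ.const_mul (c0 * (Φ.C + 1)))
    rwa [mul_zero, mul_zero, add_zero] at this
  have u1 := Φ.sc_UBf hx.1.1
  have u2 := Φ.sc_UBf hadm.1
  have u3 := UB_of_tendsto hδ
  have h1 := ul_mono u1 (u2.add u3) hsc
  rw [ul_add u2 u3, ul_eq hδ, add_zero] at h1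
  exact h1


end form

end

end Pool.Agent.Helper38.PUR
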