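import Pool.Agent.Helper38.PUR.Gain

/-! [PUR], part 3: literal forms of one coordinate over a partition; events, finer partitions. -/

set_option autoImplicit false

namespace Pool.Agent.Helper38.PUR

open Finset Filter Topology Matrix Pool.Agent.Helper69.RK Pool.Agent.Helper31.EC Pool.Agent.Helper31.EC.Sp
open Pool.Agent.Helper40.EL Pool.Agent.Helper89.LX Pool.Agent.Helper3.LF Pool.Agent.Helper84.MT
open Pool.Agent.Helper33.LIT Pool.Agent.Helper49.KL Pool.Agent.Helper3.KL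
open Pool.Agent.Helper36.AM (STu)
open Pool.Agent.Helper87.NSL (cndR)
open Pool.Agent.Helper89.RAT (xz Jz zv)
open Pool.Agent.Helper38.NSL (im_id_supp)

noncomputable section

variable {S T : Sp} {N m v g D : ℕ} {ι : Type}

/-- FORM OF THE COORDINATE `q` over the partition `V`: a literal K-form known to `V` in the coordinates `(σ, q)` (the
coordinates `τ`, `q = τ z`), the exponent of the coordinate `q` is at least `b` at every point -/
def Rec (s : MSys S N (lin g) ι) (R V : ∀ k, Setoid (S.F k).Ω) (σ : Fin v → Fin N) (q : Fin N) (b : ℝ) : Prop :=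
  ∃ (D : ℕ) (τ : Fin (v + 1) → Fin N) (z : Fin (v + 1)) (f : Fin v → Fin (v + 1)) (L : LF S (Mon (v + 1) D)),
    1 ≤ D ∧ Function.Injective τ ∧ τ z = q ∧ (∀ j, f j ≠ z ∧ τ (f j) = σ j) ∧ (∀ i, i ≠ z → ∃ j, f j = i) ∧
    L.Z = V ∧ (gaq (prs s τ).Q D).AdfK (LC.kz fun k => fc (R k)) (cndR s R 0) L.fd ∧
    ∀ᶠ k in UF, ∀ ω, (S.F k).μ ω ≠ 0 → b ≤ xz (prs s τ).Q z k ω (L.G k ω)

variable {s : MSys S N (lin g) ι} {R V : ∀ k, Setoid (S.F k).Ω} {σ : Fin v → Fin N} {q : Fin N} {b : ℝ}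

theorem Rec.mono (h : Rec s R V σ q b) {b' : ℝ} (hb : b' ≤ b) : Rec s R V σ q b' := by
  obtain ⟨D, τ, z, f, L, h1, h2, h3, h4, h5, h6, h7, h8⟩ := h
  refine ⟨D, τ, z, f, L, h1, h2, h3, h4, h5, h6, h7, ?_⟩
  filter_upwards [h8] with k hk ω hω using hb.trans (hk ω hω)

/-- a literal form on an event -/
theorem adfK_im [Finite ι] {τ : Fin m → Fin N} {L : LF S (Mon m D)}
    (h : (gaq (prs s τ).Q D).AdfK (LC.kz fun k => fc (R k)) (cndR s R 0) L.fd) (p : Pj T S)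
    (A : ∀ k, (T.F k).Ω → Prop) (hA : 0 < ul (T.pr A)) :
    (gaq (prs (s.im p A hA) τ).Q D).AdfK (LC.kz (S := Sp.im p A) fun k => fc (R k))
      (cndR (s.im p A hA) R 0) (L.im p A).fd := by
  have h9 := LF.im_adfK (p := p) (E := A) h hA
  have e1 : (fun i => (cndR s R 0 i).im p A) = cndR (S := Sp.im p A) (s.im p A hA) R 0 :=
    funext fun i => (cndR_im s R 0 p A hA i).symm
  rw [e1] at h9
  exact h9

theorem Rec.im [Finite ι] (h : Rec s R V σ q b) (p : Pj T S) (A : ∀ k, (T.F k).Ω → Prop) (hA : 0 < ul (T.pr A)) :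
    Rec (S := Sp.im p A) (s.im p A hA) R V σ q b := by
  obtain ⟨D, τ, z, f, L, h1, h2, h3, h4, h5, h6, h7, h8⟩ := h
  refine ⟨D, τ, z, f, L.im p A, h1, h2, h3, h4, h5, h6, adfK_im h7 p A hA, ?_⟩
  filter_upwards [h8] with k hk ω hω
  exact hk ω (FSp.im_supp (p.fp k) (A k) ω hω)

/-- finer partitions -/
theorem Rec.res [Finite ι] (h : Rec s R V σ q b) {V' : ∀ k, Setoid (S.F k).Ω} (hV : ∀ k, V' k ≤ V k)
    (hL : LK s R V') : Rec s R V' σ q b := by
  obtain ⟨D, τ, z, f, L, h1, h2, h3, h4, h5, h6, h7, h8⟩ := h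
  refine ⟨D, τ, z, f, ⟨V', L.G, fun k ω ω' a b c d => L.meas k ω ω' a b (by rw [h6]; exact hV k c) d⟩, h1, h2, h3, h4,
    h5, rfl, ⟨fun η hη => ?_, kz_ofZ hL.1⟩, h8⟩
  have hLk : ∀ᶠ k in UF, ∀ i, ((Lab.ofZ V') k).leak (cndR s R 0 i k) ≤ η * (S.F k).n := by
    rw [eventually_all]
    intro i
    filter_upwards [(hL.2 i).eventually (gt_mem_nhds hη)] with k hk
    exact ((div_lt_iff₀ (S.F k).pos).mp hk).le
  filter_upwards [h7.1 η hη, hLk] with k a b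
  exact ⟨b, a.2⟩

/-- the form of the coordinate on the event where its exponent is large -/
theorem rec_of_gain [Finite ι] {D : ℕ} {τ : Fin (v + 1) → Fin N} {z : Fin (v + 1)} {f : Fin v → Fin (v + 1)}
    (hD : 1 ≤ D) (hτ : Function.Injective τ) (hz : τ z = q) (hf : ∀ j, f j ≠ z ∧ τ (f j) = σ j)
    (hf' : ∀ i, i ≠ z → ∃ j, f j = i) {L : LF S (Mon (v + 1) D)}
    (hL : (gaq (prs s τ).Q D).AdfK (LC.kz fun k => fc (R k)) (cndR s R 0) L.fd)
    (A : ∀ k, (S.F k).Ω → Prop) (hA : 0 < ul (S.pr A))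
    (hb : ∀ k ω, A k ω → b ≤ xz (prs s τ).Q z k ω (L.G k ω)) :
    Rec (S := Sp.im (Pj.id S) A) (s.im (Pj.id S) A hA) R L.Z σ q b := by
  refine ⟨D, τ, z, f, L.im (Pj.id S) A, hD, hτ, hz, hf, hf', rfl, adfK_im hL (Pj.id S) A hA, ?_⟩
  have h0 : ∀ᶠ k in UF, 0 < S.pr A k := (ul_tendsto (UB_pr A)).eventually (lt_mem_nhds hA)
  filter_upwards [h0] with k hk ω hω
  exact hb k ω (im_id_supp A k ω hω hk.ne').2

end

end Pool.Agent.Helper38.PUR
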